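import Pool.Agent.Run7.h197.U.Core

/-!
**Distances of powers from `1`** at all places, and the product over the places of bad reduction.
-/

set_option autoImplicit false

namespace Run7.h197.X

open Finset NumberField Height IsDedekindDomain
open Pool.Agent.H691R3 Run7.h197.U
open Pool.Agent.Y913.Bk (PolyB)

/-- the normalised distance of `u ^ d` from `1` -/
noncomputable def bt {K : Type} [Field K] (w : AbsoluteValue K ℝ) (d : ℕ) (u : K) : ℝ :=
  w (u ^ d - 1) / max (w u) 1 ^ d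

section Local
variable {K : Type} [Field K] (w : AbsoluteValue K ℝ)

lemma bt_nonneg (d : ℕ) (u : K) : 0 ≤ bt w d u :=
  div_nonneg (w.nonneg _) (pow_nonneg (le_trans zero_le_one (le_max_right _ _)) _)

lemma one_le_max (u : K) : 1 ≤ max (w u) 1 := le_max_right _ _

lemma bt_le_two (d : ℕ) (u : K) : bt w d u ≤ 2 := by
  unfold bt
  rw [div_le_iff₀ (pow_pos (lt_of_lt_of_le one_pos (le_max_right _ _)) _)]
  have h1 : w (u ^ d) ≤ max (w u) 1 ^ d := by
    rw [map_pow]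
    exact pow_le_pow_left₀ (w.nonneg _) (le_max_left _ _) _
  have h2 : 1 ≤ max (w u) 1 ^ d := one_le_pow₀ (le_max_right _ _)
  calc w (u ^ d - 1) = w (u ^ d + -1) := by rw [sub_eq_add_neg]
    _ ≤ w (u ^ d) + w (-1) := w.add_le _ _
    _ = w (u ^ d) + 1 := by rw [AbsoluteValue.map_neg, map_one]
    _ ≤ _ := by linarith

lemma bt_inv (d : ℕ) {u : K} (hu : u ≠ 0) : bt w d u⁻¹ = bt w d u := by
  unfold bt
  have h0 : 0 < w u := w.pos hu
  have h1 : u⁻¹ ^ d - 1 = -(u ^ d - 1) * (u ^ d)⁻¹ := by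
    have := pow_ne_zero d hu
    rw [inv_pow]
    field_simp
    ring
  have h2 : max (w u⁻¹) 1 = max (w u) 1 / w u := by
    rw [map_inv₀, ← one_div]
    rcases le_total (w u) 1 with h | h
    · rw [max_eq_right h, max_eq_left]
      rw [le_div_iff₀ h0]
      linarith
    · rw [max_eq_left h, max_eq_right, div_self h0.ne']
      rw [div_le_iff₀ h0]
      linarith
  rw [h1, map_mul, AbsoluteValue.map_neg, map_inv₀, map_pow, h2, div_pow]
  have := pow_ne_zero d h0.ne'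
  have h3 : max (w u) 1 ^ d ≠ 0 := (pow_pos (lt_of_lt_of_le one_pos (le_max_right _ _)) _).ne'
  field_simp

end Local

section NA
variable {K : Type} [Field K] {w : AbsoluteValue K ℝ} (hw : ∀ a b, w (a + b) ≤ max (w a) (w b))
include hw

lemma na_sub_one_le (z : K) (hz : w z ≤ 1) : w (z - 1) ≤ 1 := by
  rw [sub_eq_add_neg]
  refine (hw _ _).trans (max_le hz ?_)
  rw [AbsoluteValue.map_neg, map_one]

lemma bt_le_one (d : ℕ) (u : K) : bt w d u ≤ 1 := by
  unfold bt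
  rw [div_le_one (pow_pos (lt_of_lt_of_le one_pos (le_max_right _ _)) _)]
  have h1 : w (u ^ d) ≤ max (w u) 1 ^ d := by
    rw [map_pow]
    exact pow_le_pow_left₀ (w.nonneg _) (le_max_left _ _) _
  rw [sub_eq_add_neg]
  refine (hw _ _).trans (max_le h1 ?_)
  rw [AbsoluteValue.map_neg, map_one]
  exact one_le_pow₀ (le_max_right _ _)

/-- the distance is `1` if `u` is not a unit -/
lemma bt_eq_one {d : ℕ} (hd : 1 ≤ d) {u : K} (hu : w u ≠ 1) : bt w d u = 1 := by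
  apply le_antisymm (bt_le_one hw d u)
  unfold bt
  rw [le_div_iff₀ (pow_pos (lt_of_lt_of_le one_pos (le_max_right _ _)) _), one_mul]
  by_contra hcon
  push Not at hcon
  rcases lt_or_gt_of_ne hu with h | h
  · rw [max_eq_right h.le, one_pow] at hcon
    have h1 : (1 : K) = u ^ d + -(u ^ d - 1) := by ring
    have h2 : w (1 : K) < 1 := by
      rw [h1]
      refine (hw _ _).trans_lt (max_lt ?_ ?_)
      · rw [map_pow]
        exact pow_lt_one₀ (w.nonneg _) h (by omega)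
      · rw [AbsoluteValue.map_neg]
        exact hcon
    rw [map_one] at h2
    exact lt_irrefl _ h2
  · rw [max_eq_left h.le] at hcon
    have h1 : u ^ d = (u ^ d - 1) + 1 := by ring
    have h2 : w (u ^ d) < w u ^ d := by
      rw [h1]
      refine (hw _ _).trans_lt (max_lt hcon ?_)
      rw [map_one]
      exact one_lt_pow₀ h (by omega)
    rw [map_pow] at h2
    exact lt_irrefl _ h2

lemma bt_unit {d : ℕ} {u : K} (hu : w u = 1) : bt w d u = w (u ^ d - 1) := by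
  unfold bt
  rw [hu, max_self, one_pow, div_one]

/-- the ultrametric inequality -/
lemma bt_mul {d : ℕ} (hd : 1 ≤ d) (u u' : K) : bt w d (u * u') ≤ max (bt w d u) (bt w d u') := by
  by_cases h1 : w u = 1
  · by_cases h2 : w u' = 1
    · have h3 : w (u * u') = 1 := by rw [map_mul, h1, h2, mul_one]
      rw [bt_unit hw h1, bt_unit hw h2, bt_unit hw h3]
      have h4 : (u * u') ^ d - 1 = u ^ d * (u' ^ d - 1) + (u ^ d - 1) := by ring
      rw [h4]
      refine (hw _ _).trans (max_le ?_ (le_max_left _ _))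
      rw [map_mul, map_pow, h1, one_pow, one_mul]
      exact le_max_right _ _
    · rw [bt_eq_one hw hd h2]
      exact (bt_le_one hw _ _).trans (le_max_right _ _)
  · rw [bt_eq_one hw hd h1]
    exact (bt_le_one hw _ _).trans (le_max_left _ _)

lemma bt_one_right (d : ℕ) : bt w d (1 : K) = 0 := by
  rw [bt_unit hw (map_one w), one_pow, sub_self, map_zero]

lemma bt_pow {d : ℕ} (hd : 1 ≤ d) (u : K) (n : ℕ) : bt w d (u ^ n) ≤ bt w d u := by
  induction n with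
  | zero =>
    rw [pow_zero, bt_one_right hw]
    exact bt_nonneg w d u
  | succ n ih =>
    rw [pow_succ]
    exact (bt_mul hw hd _ _).trans (max_le ih le_rfl)

end NA

variable {K : Type} [Field K] [NumberField K]

/-- product formula with a finite set of finite places -/
lemma prod_finset {x : K} (hx : x ≠ 0) (T : Finset (HeightOneSpectrum (𝓞 K)))
    (hT : ∀ v, fv v x ≠ 1 → v ∈ T) :
    (∏ w : InfinitePlace K, w x ^ w.mult) * ∏ v ∈ T, fv v x = 1 := by
  classical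
  rw [← prod_abs_eq_one hx]
  congr 1
  have h3 : ∏ v ∈ T, fv v x = ∏ w ∈ T.image (fun v => FinitePlace.mk v), w x := by
    rw [Finset.prod_image fun a _ b _ hab => FinitePlace.mk_eq_iff.mp hab]
    rfl
  rw [h3]
  symm
  apply finprod_eq_prod_of_mulSupport_subset
  intro w hw
  rw [Function.mem_mulSupport] at hw
  rw [Finset.coe_image]
  refine ⟨w.maximalIdeal, ?_, FinitePlace.mk_maximalIdeal w⟩
  apply hT
  show FinitePlace.mk w.maximalIdeal x ≠ 1
  rw [FinitePlace.mk_maximalIdeal]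
  exact hw

lemma height_finset {x : K} (T : Finset (HeightOneSpectrum (𝓞 K)))
    (hT : ∀ v, fv v x ≠ 1 → v ∈ T) :
    mulHeight₁ x = (∏ w : InfinitePlace K, max (w x) 1 ^ w.mult) * ∏ v ∈ T, max (fv v x) 1 := by
  classical
  rw [NumberField.mulHeight₁_eq]
  congr 1
  have h3 : ∏ v ∈ T, max (fv v x) 1 = ∏ w ∈ T.image (fun v => FinitePlace.mk v), max (w x) 1 := by
    rw [Finset.prod_image fun a _ b _ hab => FinitePlace.mk_eq_iff.mp hab]
    rfl
  rw [h3]
  apply finprod_eq_prod_of_mulSupport_subset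
  intro w hw
  rw [Function.mem_mulSupport] at hw
  rw [Finset.coe_image]
  refine ⟨w.maximalIdeal, ?_, FinitePlace.mk_maximalIdeal w⟩
  apply hT
  show FinitePlace.mk w.maximalIdeal x ≠ 1
  rw [FinitePlace.mk_maximalIdeal]
  intro h
  apply hw
  rw [h, max_self]

/-- the product of all the distances -/
lemma prod_bt {d : ℕ} {u : K} (hd : u ^ d ≠ 1) (T : Finset (HeightOneSpectrum (𝓞 K)))
    (hT : ∀ v, fv v u ≠ 1 → v ∈ T) (hT' : ∀ v, fv v (u ^ d - 1) ≠ 1 → v ∈ T) :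
    ((∏ w : InfinitePlace K, bt w.1 d u ^ w.mult) * ∏ v ∈ T, bt (fv v) d u) * mulHeight₁ u ^ d = 1 := by
  have h1 := prod_finset (sub_ne_zero.2 hd) T hT'
  rw [height_finset T hT, mul_pow, ← Finset.prod_pow, ← Finset.prod_pow]
  unfold bt
  simp only [div_pow]
  rw [Finset.prod_div_distrib, Finset.prod_div_distrib]
  have h2 : ∏ w : InfinitePlace K, (max (w.1 u) 1 ^ d) ^ w.mult =
      ∏ w : InfinitePlace K, (max (w u) 1 ^ w.mult) ^ d := by
    refine Finset.prod_congr rfl fun w _ => ?_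
    rw [← pow_mul, ← pow_mul, mul_comm]
    rfl
  rw [h2]
  have h3 : ∏ w : InfinitePlace K, (max (w u) 1 ^ w.mult) ^ d ≠ 0 :=
    (Finset.prod_pos fun w _ => pow_pos (pow_pos (lt_of_lt_of_le one_pos (le_max_right _ _)) _) _).ne'
  have h4 : ∏ v ∈ T, max (fv v u) 1 ^ d ≠ 0 :=
    (Finset.prod_pos fun w _ => pow_pos (lt_of_lt_of_le one_pos (le_max_right _ _)) _).ne'
  have h5 : (∏ w : InfinitePlace K, w.1 (u ^ d - 1) ^ w.mult) * ∏ v ∈ T, fv v (u ^ d - 1) = 1 := h1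
  field_simp
  linarith

/-- **the product over the places where `u ^ d` is closer to `1` than `u`** -/
theorem S1 (D : ℕ) : ∃ d₀ : ℕ, ∀ (K : Type) [Field K] [NumberField K], Module.finrank ℚ K ≤ D →
    ∀ (S : Finset (HeightOneSpectrum (𝓞 K))) (d : ℕ), d₀ ≤ d → ∀ u : K, u ≠ 0 →
    (∀ n : ℕ, 1 ≤ n → u ^ n ≠ 1) → (∀ v ∉ S, bt (fv v) 1 u ≤ bt (fv v) d u) →
    (∏ v ∈ S, bt (fv v) d u) ^ 2 * mulHeight₁ u ^ d ≤ 1 := by
  classical
  obtain ⟨N, hN1, hgap⟩ := gap D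
  obtain ⟨κ, g₀, hpow⟩ := pow_far D
  obtain ⟨g1, hg1⟩ := ((PolyB.const (8 * ((N + 1) * D))).mul ((PolyB.const 2).add
    ((PolyB.const 3).mul (PolyB.id.pow κ)))).add (PolyB.const 8) |>.le_two_pow
  refine ⟨2 ^ (g₀ + g1 + 1), ?_⟩
  intro K _ _ hK S d hd u hu0 hroot hgood
  obtain ⟨g, hg⟩ : ∃ g, g = Nat.size d := ⟨_, rfl⟩
  have hgd : d < 2 ^ g := by rw [hg]; exact Nat.lt_size_self d
  have hgg : g₀ + g1 + 1 < g := by
    have h1 : 2 ^ (g₀ + g1 + 1) < 2 ^ g := lt_of_le_of_lt hd hgd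
    exact (Nat.pow_lt_pow_iff_right (by norm_num)).1 h1
  have hd1 : 1 ≤ d := le_trans (Nat.one_le_two_pow) hd
  have hgd' : 2 ^ g ≤ 2 * d := by
    have h2 : 2 ^ (g - 1) ≤ d := by
      apply Nat.lt_size.1
      omega
    calc 2 ^ g = 2 ^ (g - 1 + 1) := by rw [Nat.sub_add_cancel (by omega)]
      _ = 2 ^ (g - 1) * 2 := pow_succ _ _
      _ ≤ 2 * d := by omega
  have hp := hg1 g (by omega)
  obtain ⟨H, hH⟩ : ∃ H, H = mulHeight₁ u := ⟨_, rfl⟩
  have hH1 : 1 ≤ H := by rw [hH]; exact one_le_mulHeight₁ _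
  have hHN : 2 < H ^ N := by rw [hH]; exact hgap K hK u hroot hu0
  obtain ⟨n, hn1, hn2⟩ := exists_nat_pow_near hH1 (by norm_num : (1 : ℝ) < 2)
  obtain ⟨X, hX⟩ : ∃ X, X = n + 1 := ⟨_, rfl⟩
  have hHX : mulHeight₁ u ≤ 2 ^ X := by rw [hX, ← hH]; exact hn2.le
  have h2X : (2 : ℝ) ^ X ≤ H ^ (N + 1) := by
    rw [hX, pow_succ, pow_succ, mul_comm]
    exact mul_le_mul hHN.le hn1 (by positivity) (by positivity)
  obtain ⟨A, hA⟩ : ∃ A, A = g ^ κ * (2 * X + 1) + 1 := ⟨_, rfl⟩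
  -- archimedean places
  have harch : ∀ w : InfinitePlace K, (1 / 2 : ℝ) ^ A ≤ bt w.1 d u := by
    have key : ∀ (w : InfinitePlace K) (u' : K), u' ≠ 0 → (∀ n : ℕ, 1 ≤ n → u' ^ n ≠ 1) →
        mulHeight₁ u' ≤ 2 ^ X → w.1 u' ≤ 1 → (1 / 2 : ℝ) ^ A ≤ bt w.1 d u' := by
      intro w u' hu' hr' hX' hw
      unfold bt
      rw [max_eq_right hw, one_pow, div_one, hA]
      exact inf_far (K := K) (fun φ x h1 h2 g d X h3 h4 h5 h6 =>
        hpow K hK φ x h1 h2 g d X h3 h4 h5 h6) w u' hu' hr' g d X (by omega) hd1 hgd.le hX'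
    intro w
    by_cases hw : w.1 u ≤ 1
    · exact key w u hu0 hroot hHX hw
    · push Not at hw
      rw [← bt_inv w.1 d hu0]
      apply key w u⁻¹ (inv_ne_zero hu0)
      · intro m hm h
        apply hroot m hm
        rw [inv_pow, inv_eq_one] at h
        exact h
      · rw [mulHeight₁_inv]
        exact hHX
      · rw [map_inv₀]
        exact inv_le_one_of_one_le₀ hw.le
  -- the finite set of places
  have hud : u ^ d ≠ 1 := hroot d hd1
  have hu1 : u ^ 1 ≠ 1 := hroot 1 le_rfl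
  obtain ⟨T, hTS, hT0, hTd, hT1⟩ : ∃ T : Finset (HeightOneSpectrum (𝓞 K)), S ⊆ T ∧
      (∀ v, fv v u ≠ 1 → v ∈ T) ∧ (∀ v, fv v (u ^ d - 1) ≠ 1 → v ∈ T) ∧
      (∀ v, fv v (u ^ 1 - 1) ≠ 1 → v ∈ T) := by
    refine ⟨S ∪ ((fv_support_finite hu0).toFinset ∪
      ((fv_support_finite (sub_ne_zero.2 hud)).toFinset ∪
      (fv_support_finite (sub_ne_zero.2 hu1)).toFinset)), Finset.subset_union_left, ?_, ?_, ?_⟩
    · intro v hv
      simp only [Finset.mem_union, Set.Finite.mem_toFinset, Set.mem_ofPred_eq]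
      exact Or.inr (Or.inl hv)
    · intro v hv
      simp only [Finset.mem_union, Set.Finite.mem_toFinset, Set.mem_ofPred_eq]
      exact Or.inr (Or.inr (Or.inl hv))
    · intro v hv
      simp only [Finset.mem_union, Set.Finite.mem_toFinset, Set.mem_ofPred_eq]
      exact Or.inr (Or.inr (Or.inr hv))
  have hprodd := prod_bt hud T hT0 hTd
  have hprod1 := prod_bt hu1 T hT0 hT1
  obtain ⟨P, hP⟩ : ∃ P, P = ∏ v ∈ S, bt (fv v) d u := ⟨_, rfl⟩
  have hP0 : 0 ≤ P := by rw [hP]; exact Finset.prod_nonneg fun v _ => bt_nonneg _ _ _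
  obtain ⟨B₁, hB₁⟩ : ∃ B₁, B₁ = ∏ v ∈ T, bt (fv v) 1 u := ⟨_, rfl⟩
  have hB₁0 : 0 ≤ B₁ := by rw [hB₁]; exact Finset.prod_nonneg fun v _ => bt_nonneg _ _ _
  have hT2 : P * B₁ ≤ ∏ v ∈ T, bt (fv v) d u := by
    rw [hP, hB₁, ← Finset.prod_sdiff hTS (f := fun v => bt (fv v) 1 u),
      ← Finset.prod_sdiff hTS (f := fun v => bt (fv v) d u)]
    have h1 : ∏ v ∈ T \ S, bt (fv v) 1 u ≤ ∏ v ∈ T \ S, bt (fv v) d u := by
      apply Finset.prod_le_prod (fun v _ => bt_nonneg _ _ _)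
      intro v hv
      exact hgood v (Finset.mem_sdiff.1 hv).2
    have h2 : ∏ v ∈ S, bt (fv v) 1 u ≤ 1 :=
      Finset.prod_le_one (fun v _ => bt_nonneg _ _ _) fun v _ => bt_le_one (fv_na v) _ _
    have h3 : 0 ≤ ∏ v ∈ S, bt (fv v) d u := Finset.prod_nonneg fun v _ => bt_nonneg _ _ _
    have h4 : 0 ≤ ∏ v ∈ T \ S, bt (fv v) 1 u := Finset.prod_nonneg fun v _ => bt_nonneg _ _ _
    have h5 : 0 ≤ ∏ v ∈ S, bt (fv v) 1 u := Finset.prod_nonneg fun v _ => bt_nonneg _ _ _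
    calc (∏ v ∈ S, bt (fv v) d u) * ((∏ v ∈ T \ S, bt (fv v) 1 u) * ∏ v ∈ S, bt (fv v) 1 u)
        ≤ (∏ v ∈ S, bt (fv v) d u) * ((∏ v ∈ T \ S, bt (fv v) d u) * 1) := by
          apply mul_le_mul_of_nonneg_left _ h3
          exact mul_le_mul h1 h2 h5 (Finset.prod_nonneg fun v _ => bt_nonneg _ _ _)
      _ = _ := by ring
  -- archimedean products
  obtain ⟨W, hW⟩ : ∃ W, W = ∏ w : InfinitePlace K, bt w.1 d u ^ w.mult := ⟨_, rfl⟩
  obtain ⟨W₁, hW₁⟩ : ∃ W₁, W₁ = ∏ w : InfinitePlace K, bt w.1 1 u ^ w.mult := ⟨_, rfl⟩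
  rw [← hW, ← hH] at hprodd
  rw [← hW₁, ← hB₁, ← hH, pow_one] at hprod1
  have hWlow : (1 / 2 : ℝ) ^ (A * D) ≤ W := by
    calc (1 / 2 : ℝ) ^ (A * D) ≤ (1 / 2 : ℝ) ^ (A * Module.finrank ℚ K) :=
          pow_le_pow_of_le_one (by norm_num) (by norm_num) (Nat.mul_le_mul_left _ hK)
      _ = ∏ w : InfinitePlace K, ((1 / 2 : ℝ) ^ A) ^ w.mult := by
          rw [Finset.prod_pow_eq_pow_sum, ← totalWeight_eq_sum_mult, totalWeight_eq_finrank,
            ← pow_mul]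
      _ ≤ _ := by
          rw [hW]
          apply Finset.prod_le_prod (fun w _ => by positivity)
          intro w _
          exact pow_le_pow_left₀ (by positivity) (harch w) _
  have hW₁up : W₁ ≤ 2 ^ D := by
    rw [hW₁]
    calc ∏ w : InfinitePlace K, bt w.1 1 u ^ w.mult ≤ ∏ w : InfinitePlace K, (2 : ℝ) ^ w.mult := by
          apply Finset.prod_le_prod (fun w _ => pow_nonneg (bt_nonneg _ _ _) _)
          intro w _
          exact pow_le_pow_left₀ (bt_nonneg _ _ _) (bt_le_two _ _ _) _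
      _ = 2 ^ Module.finrank ℚ K := by
          rw [Finset.prod_pow_eq_pow_sum, ← totalWeight_eq_sum_mult, totalWeight_eq_finrank]
      _ ≤ _ := pow_le_pow_right₀ (by norm_num) hK
  have hW0 : 0 ≤ W := le_trans (by positivity) hWlow
  have hH0 : 0 < H := by linarith
  -- the inequality
  have hmain : P * (1 / 2 : ℝ) ^ (A * D) * H ^ d ≤ 2 ^ D * H := by
    have h1 : 1 ≤ 2 ^ D * (B₁ * H) := by
      calc (1 : ℝ) = W₁ * B₁ * H := hprod1.symm
        _ = W₁ * (B₁ * H) := by ring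
        _ ≤ 2 ^ D * (B₁ * H) := mul_le_mul_of_nonneg_right hW₁up (mul_nonneg hB₁0 hH0.le)
    have h2 : W * (P * B₁) * H ^ d ≤ 1 := by
      rw [← hprodd]
      apply mul_le_mul_of_nonneg_right _ (by positivity)
      exact mul_le_mul_of_nonneg_left hT2 hW0
    have h3 : 0 ≤ P * (1 / 2 : ℝ) ^ (A * D) * H ^ d := by positivity
    calc P * (1 / 2 : ℝ) ^ (A * D) * H ^ d
        ≤ P * (1 / 2 : ℝ) ^ (A * D) * H ^ d * (2 ^ D * (B₁ * H)) := le_mul_of_one_le_right h3 h1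
      _ = (2 ^ D * H) * ((1 / 2 : ℝ) ^ (A * D) * (P * B₁) * H ^ d) := by ring
      _ ≤ (2 ^ D * H) * (W * (P * B₁) * H ^ d) := by
          apply mul_le_mul_of_nonneg_left _ (by positivity)
          apply mul_le_mul_of_nonneg_right _ (by positivity)
          exact mul_le_mul_of_nonneg_right hWlow (mul_nonneg hP0 hB₁0)
      _ ≤ (2 ^ D * H) * 1 := mul_le_mul_of_nonneg_left h2 (by positivity)
      _ = _ := mul_one _
  obtain ⟨E, hE⟩ : ∃ E, E = (N + 1) * D * (2 + 3 * g ^ κ) := ⟨_, rfl⟩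
  have hloss : (2 : ℝ) ^ (D + A * D) ≤ H ^ E := by
    have h1 : D + A * D ≤ X * (D * (2 + 3 * g ^ κ)) := by
      have h2 : 1 + A ≤ X * (2 + 3 * g ^ κ) := by
        rw [hA]
        have hX1 : 1 ≤ X := by omega
        obtain ⟨X', rfl⟩ : ∃ X', X = X' + 1 := ⟨X - 1, by omega⟩
        nlinarith [Nat.zero_le (g ^ κ), Nat.zero_le (X' * g ^ κ), Nat.zero_le X']
      calc D + A * D = (1 + A) * D := by ring
        _ ≤ (X * (2 + 3 * g ^ κ)) * D := Nat.mul_le_mul_right _ h2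
        _ = _ := by ring
    calc (2 : ℝ) ^ (D + A * D) ≤ 2 ^ (X * (D * (2 + 3 * g ^ κ))) :=
          pow_le_pow_right₀ (by norm_num) h1
      _ = (2 ^ X) ^ (D * (2 + 3 * g ^ κ)) := pow_mul _ _ _
      _ ≤ (H ^ (N + 1)) ^ (D * (2 + 3 * g ^ κ)) := pow_le_pow_left₀ (by positivity) h2X _
      _ = H ^ E := by rw [← pow_mul, hE]; congr 1; ring
  have h6 : P * H ^ d ≤ H ^ (E + 1) := by
    have h7 : (1 / 2 : ℝ) ^ (A * D) * 2 ^ (A * D) = 1 := by
      rw [← mul_pow]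
      norm_num
    calc P * H ^ d = (P * (1 / 2 : ℝ) ^ (A * D) * H ^ d) * 2 ^ (A * D) := by
          calc P * H ^ d = P * H ^ d * ((1 / 2 : ℝ) ^ (A * D) * 2 ^ (A * D)) := by rw [h7, mul_one]
            _ = _ := by ring
      _ ≤ (2 ^ D * H) * 2 ^ (A * D) := mul_le_mul_of_nonneg_right hmain (by positivity)
      _ = 2 ^ (D + A * D) * H := by rw [pow_add]; ring
      _ ≤ H ^ E * H := mul_le_mul_of_nonneg_right hloss hH0.le
      _ = _ := (pow_succ _ _).symm
  have hEd : 2 * (E + 1) ≤ d := by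
    have h8 : 8 * ((N + 1) * D) * (2 + 3 * g ^ κ) + 8 ≤ 2 * d := hp.trans hgd'
    have h9 : 8 * ((N + 1) * D) * (2 + 3 * g ^ κ) = 8 * E := by rw [hE]; ring
    omega
  rw [← hP, ← hH]
  have h10 : (P * H ^ d) ^ 2 ≤ H ^ d := by
    calc (P * H ^ d) ^ 2 ≤ (H ^ (E + 1)) ^ 2 := pow_le_pow_left₀ (by positivity) h6 _
      _ = H ^ (2 * (E + 1)) := by rw [← pow_mul, mul_comm]
      _ ≤ H ^ d := pow_le_pow_right₀ hH1 hEd
  have h11 : 0 < H ^ d := by positivity
  have h12 : (P ^ 2 * H ^ d) * H ^ d ≤ 1 * H ^ d := by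
    calc (P ^ 2 * H ^ d) * H ^ d = (P * H ^ d) ^ 2 := by ring
      _ ≤ H ^ d := h10
      _ = 1 * H ^ d := (one_mul _).symm
  exact le_of_mul_le_mul_right h12 h11

end Run7.h197.X
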