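import Pool.Agent.Run7.h197.X.Dom

/-!
**Box principle**: `r` elements of comparable heights dominated by the same place are
multiplicatively dependent.
-/

set_option autoImplicit false

namespace Run7.h197.X

open Finset NumberField Height IsDedekindDomain
open Pool.Agent.H691R3 Run7.h197.U

variable {K : Type} [Field K] [NumberField K]

lemma one_le_fv_sub_mul (v : HeightOneSpectrum (𝓞 K)) {t : K} (ht : t ≠ 1) :
    1 ≤ fv v (t - 1) * (2 ^ Module.finrank ℚ K * mulHeight₁ t) := by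
  have h0 : t - 1 ≠ 0 := sub_ne_zero.2 ht
  have h2 := fv_le_height v (inv_ne_zero h0)
  rw [mulHeight₁_inv, map_inv₀] at h2
  have h3 : 0 < fv v (t - 1) := (fv v).pos h0
  have h4 : mulHeight₁ (t - 1) ≤ 2 ^ Module.finrank ℚ K * mulHeight₁ t := by
    calc mulHeight₁ (t - 1) ≤ 2 ^ totalWeight K * mulHeight₁ t * mulHeight₁ (1 : K) :=
          mulHeight₁_sub_le _ _
      _ = 2 ^ totalWeight K * mulHeight₁ t := by rw [mulHeight₁_one, mul_one]
      _ = _ := by rw [totalWeight_eq_finrank]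
  have h5 := h2.trans h4
  rwa [inv_le_iff_one_le_mul₀ h3, mul_comm] at h5

/-- powers of the distance -/
lemma Dm.bd {v : HeightOneSpectrum (𝓞 K)} {s d : ℕ} {u : K} (h : Dm v s d u) {Z : ℝ}
    (hZ0 : 0 ≤ Z) (hZ : Z ≤ mulHeight₁ u ^ 2) : bt (fv v) d u ^ (4 * s) * Z ^ d ≤ 1 := by
  unfold Dm at h
  have h0 : 0 ≤ bt (fv v) d u := bt_nonneg _ _ _
  have hH : 0 ≤ mulHeight₁ u := mulHeight₁_nonneg _
  calc bt (fv v) d u ^ (4 * s) * Z ^ d ≤ bt (fv v) d u ^ (4 * s) * (mulHeight₁ u ^ 2) ^ d := by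
        apply mul_le_mul_of_nonneg_left _ (by positivity)
        exact pow_le_pow_left₀ hZ0 hZ _
    _ = (bt (fv v) d u ^ (2 * s) * mulHeight₁ u ^ d) ^ 2 := by ring
    _ ≤ 1 := pow_le_one₀ (by positivity) h

theorem box {D N d s g r B : ℕ} (hK : Module.finrank ℚ K ≤ D) (hd : 1 ≤ d) (hdg : d ≤ 2 ^ g)
    (hr : 1 ≤ r) (hB : d < (B + 1) ^ r)
    (hsmall : (N + 1) * (2 * s * (D * (g + 1) + 2 ^ D * cD D)) < d)
    (hbox : 4 * s * (r * B) + 4 * s * (D * N * (g + 1)) < d)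
    (u : Fin r → K) (hu : ∀ i, NT (u i)) (hN : ∀ i, 2 < mulHeight₁ (u i) ^ N)
    {v : HeightOneSpectrum (𝓞 K)} (hD : ∀ i, Dm v s d (u i)) {Z : ℝ}
    (hZ : ∀ i, mulHeight₁ (u i) ≤ Z) (hZ' : ∀ i, Z ≤ mulHeight₁ (u i) ^ 2) :
    ∃ a : Fin r → ℤ, a ≠ 0 ∧ ∏ i, u i ^ a i = 1 := by
  classical
  by_contra hcon
  push Not at hcon
  obtain ⟨i₀, hi₀⟩ : ∃ i₀ : Fin r, i₀ = ⟨0, hr⟩ := ⟨_, rfl⟩
  have hH := fun i => NT.one_lt (hN i)
  have hZgt : 1 < Z := lt_of_lt_of_le (hH i₀) (hZ i₀)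
  have hZ0 : 0 ≤ Z := by linarith
  have hNlarge := (hD i₀).norm_large hK hd hdg hsmall (hu i₀) (hN i₀)
  have hb1 : ∀ i, bt (fv v) d (u i) < 1 := fun i => ((hD i).lt_one hd (hN i)).1
  have hf1 : ∀ i, fv v (u i) = 1 := fun i => ((hD i).lt_one hd (hN i)).2
  -- the largest distance
  obtain ⟨k, _, hk⟩ := Finset.exists_max_image (Finset.univ : Finset (Fin r))
    (fun i => bt (fv v) d (u i)) ⟨i₀, Finset.mem_univ _⟩
  obtain ⟨β, hβ⟩ : ∃ β, β = bt (fv v) d (u k) := ⟨_, rfl⟩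
  have hβ0 : 0 ≤ β := by rw [hβ]; exact bt_nonneg _ _ _
  have hβ1 : β < 1 := by rw [hβ]; exact hb1 k
  have hβi : ∀ i, bt (fv v) d (u i) ≤ β := fun i => by rw [hβ]; exact hk i (Finset.mem_univ _)
  have hbtp : ∀ (a : Fin r → ℕ) (I : Finset (Fin r)), bt (fv v) d (∏ i ∈ I, u i ^ a i) ≤ β := by
    intro a I
    induction I using Finset.induction_on with
    | empty =>
      rw [Finset.prod_empty, bt_one_right (fv_na v)]
      exact hβ0
    | insert i I hi ih =>
      rw [Finset.prod_insert hi]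
      exact (bt_mul (fv_na v) hd _ _).trans (max_le ((bt_pow (fv_na v) hd _ _).trans (hβi i)) ih)
  have hfz : ∀ a : Fin r → ℕ, fv v (∏ i, u i ^ a i) = 1 := by
    intro a
    rw [map_prod]
    apply Finset.prod_eq_one
    intro i _
    rw [map_pow, hf1, one_pow]
  obtain ⟨a, ha, b, hb, hab, hlt⟩ := res_count v
    (Fintype.piFinset fun _ : Fin r => Finset.range (B + 1))
    (fun a : Fin r → ℕ => ∏ i, u i ^ a i) hd (fun a _ => hfz a)
    (fun a _ => by
      rw [← bt_unit (fv_na v) (hfz a)]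
      exact (hbtp a _).trans_lt hβ1)
    (by
      rw [Fintype.card_piFinset]
      simpa using hB)
  rw [Fintype.mem_piFinset] at ha hb
  simp only [Finset.mem_range] at ha hb
  -- the quotient
  obtain ⟨c, hc⟩ : ∃ c : Fin r → ℤ, c = fun i => (a i : ℤ) - b i := ⟨_, rfl⟩
  have hc0 : c ≠ 0 := by
    intro h
    apply hab
    funext i
    have h1 := congrFun h i
    rw [hc] at h1
    simp only [Pi.zero_apply] at h1
    omega
  have hcB : ∀ i, (c i).natAbs ≤ B := by
    intro i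
    have h1 := ha i
    have h2 := hb i
    rw [hc]
    simp only
    omega
  obtain ⟨t, ht⟩ : ∃ t, t = ∏ i, u i ^ c i := ⟨_, rfl⟩
  have hpb : ∏ i, u i ^ b i ≠ 0 := Finset.prod_ne_zero_iff.2 fun i _ => pow_ne_zero _ (hu i).1
  have ht' : t * ∏ i, u i ^ b i = ∏ i, u i ^ a i := by
    rw [ht, ← Finset.prod_mul_distrib]
    refine Finset.prod_congr rfl fun i _ => ?_
    rw [hc]
    simp only
    rw [zpow_sub₀ (hu i).1, zpow_natCast, zpow_natCast, div_mul_cancel₀ _ (pow_ne_zero _ (hu i).1)]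
  have htn : ∀ n : ℕ, 1 ≤ n → t ^ n ≠ 1 := by
    intro n hn h3
    have h4 : ∏ i, u i ^ (c i * n) = 1 := by
      rw [← h3, ht, ← Finset.prod_pow]
      refine Finset.prod_congr rfl fun i _ => ?_
      rw [zpow_mul, zpow_natCast]
    refine hcon (fun i => c i * n) ?_ h4
    intro h5
    apply hc0
    funext i
    have h6 := congrFun h5 i
    simp only [Pi.zero_apply] at h6
    have hn0 : (n : ℤ) ≠ 0 := by omega
    exact (mul_eq_zero.1 h6).resolve_right hn0
  have hfvt : fv v t = 1 := by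
    have h3 := congrArg (fv v) ht'
    rw [map_mul, hfz, hfz, mul_one] at h3
    exact h3
  have hw : fv v (t - 1) < 1 := by
    have h3 : ∏ i, u i ^ a i - ∏ i, u i ^ b i = (t - 1) * ∏ i, u i ^ b i := by
      rw [← ht']
      ring
    rw [h3, map_mul, hfz, mul_one] at hlt
    exact hlt
  have hw0 : t - 1 ≠ 0 := by
    have := htn 1 le_rfl
    rw [pow_one] at this
    exact sub_ne_zero.2 this
  have hw2 : fv v (t - 1) < (1 / 2) ^ Module.finrank ℚ K := by
    obtain ⟨n, hn⟩ : ∃ n : ℤ, fv v (t - 1) = (Nv v) ^ n := fv_zpow v hw0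
    have hN2' : (1 : ℝ) < Nv v := by linarith [two_le_Nv v]
    have hn1 : n ≤ -1 := by
      by_contra h3
      push Not at h3
      have h4 : (1 : ℝ) ≤ (Nv v) ^ n := one_le_zpow₀ hN2'.le (by omega)
      linarith [hn ▸ hw]
    have h5 : fv v (t - 1) ≤ (Nv v)⁻¹ := by
      rw [hn, ← zpow_neg_one]
      exact zpow_le_zpow_right₀ hN2'.le hn1
    have h6 : (2 : ℝ) ^ D < Nv v := by
      have h7 : Nv v = (Ideal.absNorm v.asIdeal : ℝ) := rfl
      rw [h7]
      exact_mod_cast hNlarge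
    calc fv v (t - 1) ≤ (Nv v)⁻¹ := h5
      _ < ((2 : ℝ) ^ D)⁻¹ := by
          apply inv_strictAnti₀ (by positivity) h6
      _ = (1 / 2) ^ D := by rw [one_div, inv_pow]
      _ ≤ _ := pow_le_pow_of_le_one (by norm_num) (by norm_num) hK
  have hps := fv_pow_sub v hw0 hw2 hd
  rw [sub_add_cancel] at hps
  -- the upper bound
  have hbt : bt (fv v) d t ≤ β := by
    have h3 : t = (∏ i, u i ^ a i) * (∏ i, u i ^ b i)⁻¹ := by
      rw [← ht', mul_assoc, mul_inv_cancel₀ hpb, mul_one]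
    rw [h3]
    refine (bt_mul (fv_na v) hd _ _).trans (max_le (hbtp _ _) ?_)
    rw [bt_inv (fv v) d hpb]
    exact hbtp _ _
  rw [bt_unit (fv_na v) hfvt] at hbt
  have hβZ : β ^ (4 * s) * Z ^ d ≤ 1 := by
    rw [hβ]
    exact (hD k).bd hZ0 (hZ' k)
  -- the lower bound
  have hlow := one_le_fv_sub_mul v (t := t) (by
    intro h
    apply hw0
    rw [h, sub_self])
  have hHt : mulHeight₁ t ≤ Z ^ (r * B) := by
    have h1 : ∀ I : Finset (Fin r), mulHeight₁ (∏ i ∈ I, u i ^ c i) ≤ Z ^ (I.card * B) := by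
      intro I
      induction I using Finset.induction_on with
      | empty => rw [Finset.prod_empty, mulHeight₁_one, Finset.card_empty, Nat.zero_mul, pow_zero]
      | insert i I hi ih =>
        rw [Finset.prod_insert hi, Finset.card_insert_of_notMem hi, Nat.succ_mul, pow_add, mul_comm]
        refine (mulHeight₁_mul_le _ _).trans ?_
        apply mul_le_mul ih _ (mulHeight₁_nonneg _) (by positivity)
        rw [mulHeight₁_zpow]
        calc mulHeight₁ (u i) ^ (c i).natAbs ≤ Z ^ (c i).natAbs :=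
              pow_le_pow_left₀ (mulHeight₁_nonneg _) (hZ i) _
          _ ≤ Z ^ B := pow_le_pow_right₀ hZgt.le (hcB i)
    have h2 := h1 Finset.univ
    rw [Finset.card_univ, Fintype.card_fin, ← ht] at h2
    exact h2
  have hdn := fv_nat v (K := K) hd
  have hdpos : (0 : ℝ) < (d : ℝ) ^ Module.finrank ℚ K := by
    apply pow_pos
    exact_mod_cast hd
  have hdn2 : 1 ≤ fv v (d : K) * (d : ℝ) ^ Module.finrank ℚ K := by
    rwa [inv_le_iff_one_le_mul₀ hdpos] at hdn
  have hone : 1 ≤ β * ((d : ℝ) ^ Module.finrank ℚ K * (2 ^ Module.finrank ℚ K * Z ^ (r * B))) := by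
    have h3 : 0 ≤ fv v (t - 1) := (fv v).nonneg _
    have h4 : 0 ≤ fv v (d : K) := (fv v).nonneg _
    calc (1 : ℝ) ≤ (fv v (d : K) * (d : ℝ) ^ Module.finrank ℚ K) *
          (fv v (t - 1) * (2 ^ Module.finrank ℚ K * mulHeight₁ t)) :=
            one_le_mul_of_one_le_of_one_le hdn2 hlow
      _ ≤ (fv v (d : K) * (d : ℝ) ^ Module.finrank ℚ K) *
          (fv v (t - 1) * (2 ^ Module.finrank ℚ K * Z ^ (r * B))) := by
          apply mul_le_mul_of_nonneg_left _ (by positivity)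
          apply mul_le_mul_of_nonneg_left _ h3
          exact mul_le_mul_of_nonneg_left hHt (by positivity)
      _ = (fv v (d : K) * fv v (t - 1)) *
          ((d : ℝ) ^ Module.finrank ℚ K * (2 ^ Module.finrank ℚ K * Z ^ (r * B))) := by ring
      _ ≤ β * ((d : ℝ) ^ Module.finrank ℚ K * (2 ^ Module.finrank ℚ K * Z ^ (r * B))) := by
          apply mul_le_mul_of_nonneg_right _ (by positivity)
          exact hps.trans hbt
  have hdD : (d : ℝ) ^ Module.finrank ℚ K * 2 ^ Module.finrank ℚ K ≤ Z ^ (D * N * (g + 1)) := by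
    calc (d : ℝ) ^ Module.finrank ℚ K * 2 ^ Module.finrank ℚ K
        ≤ (2 ^ g : ℝ) ^ Module.finrank ℚ K * 2 ^ Module.finrank ℚ K := by
          apply mul_le_mul_of_nonneg_right _ (by positivity)
          apply pow_le_pow_left₀ (by positivity)
          exact_mod_cast hdg
      _ = 2 ^ ((g + 1) * Module.finrank ℚ K) := by rw [← mul_pow, ← pow_succ, ← pow_mul]
      _ ≤ 2 ^ ((g + 1) * D) := pow_le_pow_right₀ (by norm_num) (Nat.mul_le_mul_left _ hK)
      _ ≤ (mulHeight₁ (u i₀) ^ N) ^ ((g + 1) * D) := pow_le_pow_left₀ (by norm_num) (hN i₀).le _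
      _ = mulHeight₁ (u i₀) ^ (D * N * (g + 1)) := by rw [← pow_mul]; congr 1; ring
      _ ≤ _ := pow_le_pow_left₀ (mulHeight₁_nonneg _) (hZ i₀) _
  have hone2 : 1 ≤ β * Z ^ (D * N * (g + 1) + r * B) := by
    refine hone.trans ?_
    apply mul_le_mul_of_nonneg_left _ hβ0
    rw [← mul_assoc, pow_add]
    exact mul_le_mul_of_nonneg_right hdD (by positivity)
  have hfin : Z ^ d ≤ Z ^ (4 * s * (r * B) + 4 * s * (D * N * (g + 1))) := by
    have h3 : 1 ≤ β ^ (4 * s) * Z ^ (4 * s * (r * B) + 4 * s * (D * N * (g + 1))) := by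
      calc (1 : ℝ) ≤ (β * Z ^ (D * N * (g + 1) + r * B)) ^ (4 * s) := one_le_pow₀ hone2
        _ = _ := by
            rw [mul_pow, ← pow_mul]
            congr 2
            ring
    calc Z ^ d = Z ^ d * 1 := (mul_one _).symm
      _ ≤ Z ^ d * (β ^ (4 * s) * Z ^ (4 * s * (r * B) + 4 * s * (D * N * (g + 1)))) :=
          mul_le_mul_of_nonneg_left h3 (by positivity)
      _ = (β ^ (4 * s) * Z ^ d) * Z ^ (4 * s * (r * B) + 4 * s * (D * N * (g + 1))) := by ring
      _ ≤ 1 * Z ^ (4 * s * (r * B) + 4 * s * (D * N * (g + 1))) :=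
          mul_le_mul_of_nonneg_right hβZ (by positivity)
      _ = _ := one_mul _
  have := pow_lt_pow_right₀ hZgt hbox
  linarith

end Run7.h197.X
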