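import Pool.Agent.Run7.h197.X.Beta
import Pool.Agent.H691R3.Places

/-!
**Dominating places** for the distances of powers from `1`.
-/

set_option autoImplicit false

namespace Run7.h197.X

open Finset NumberField Height IsDedekindDomain
open Pool.Agent.H691R3 Run7.h197.U
open Pool.Agent.Y913.Bk (PolyB)

variable {K : Type} [Field K] [NumberField K]

/-- the place `v` dominates `u` -/
def Dm (v : HeightOneSpectrum (𝓞 K)) (s d : ℕ) (u : K) : Prop :=
  bt (fv v) d u ^ (2 * s) * mulHeight₁ u ^ d ≤ 1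

/-- not a root of unity -/
def NT {K : Type} [Field K] (u : K) : Prop := u ≠ 0 ∧ ∀ n : ℕ, 1 ≤ n → u ^ n ≠ 1

lemma NT.inv {K : Type} [Field K] {u : K} (h : NT u) : NT u⁻¹ := by
  refine ⟨inv_ne_zero h.1, fun n hn h1 => ?_⟩
  rw [inv_pow, inv_eq_one] at h1
  exact h.2 n hn h1

lemma NT.one_lt {N : ℕ} {u : K} (hN : 2 < mulHeight₁ u ^ N) : 1 < mulHeight₁ u := by
  by_contra hcon
  push Not at hcon
  have h1 := pow_le_one₀ (mulHeight₁_nonneg u) hcon (n := N)
  linarith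

/-- existence of a dominating place -/
theorem exists_dm {S : Finset (HeightOneSpectrum (𝓞 K))} {d N : ℕ} (hd : 1 ≤ d) {u : K}
    (hN : 2 < mulHeight₁ u ^ N)
    (h : (∏ v ∈ S, bt (fv v) d u) ^ 2 * mulHeight₁ u ^ d ≤ 1) : ∃ v ∈ S, Dm v S.card d u := by
  classical
  have h1 := NT.one_lt hN
  by_contra hcon
  push Not at hcon
  unfold Dm at hcon
  rcases S.eq_empty_or_nonempty with h0 | hne
  · rw [h0, Finset.prod_empty, one_pow, one_mul] at h
    have := one_lt_pow₀ h1 (by omega : d ≠ 0)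
    linarith
  · have h2 : ∏ _v ∈ S, (1 : ℝ) < ∏ v ∈ S, (bt (fv v) d u ^ (2 * S.card) * mulHeight₁ u ^ d) := by
      apply Finset.prod_lt_prod_of_nonempty (fun _ _ => one_pos) _ hne
      intro v hv
      exact not_le.1 (hcon v hv)
    rw [Finset.prod_const_one, Finset.prod_mul_distrib, Finset.prod_const, Finset.prod_pow,
      pow_mul, ← mul_pow] at h2
    have h3 : 0 ≤ (∏ v ∈ S, bt (fv v) d u) ^ 2 * mulHeight₁ u ^ d :=
      mul_nonneg (sq_nonneg _) (pow_nonneg (mulHeight₁_nonneg _) _)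
    have h4 := pow_le_one₀ h3 h (n := S.card)
    linarith

/-- Liouville's inequality -/
theorem liou {D N d : ℕ} (hK : Module.finrank ℚ K ≤ D) (hND : N * D ≤ d) (hd : 1 ≤ d) {u : K}
    (hu : NT u) (hN : 2 < mulHeight₁ u ^ N) (v : HeightOneSpectrum (𝓞 K)) :
    1 ≤ bt (fv v) d u * mulHeight₁ u ^ (2 * d) := by
  have h1 := NT.one_lt hN
  obtain ⟨H, hH⟩ : ∃ H, H = mulHeight₁ u := ⟨_, rfl⟩
  rw [← hH] at h1 hN ⊢
  by_cases hv : fv v u = 1
  · rw [bt_unit (fv_na v) hv]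
    have h0 : u ^ d - 1 ≠ 0 := sub_ne_zero.2 (hu.2 d hd)
    have h2 := fv_le_height v (inv_ne_zero h0)
    rw [mulHeight₁_inv, map_inv₀] at h2
    have h3 : 0 < fv v (u ^ d - 1) := (fv v).pos h0
    have h4 : mulHeight₁ (u ^ d - 1) ≤ H ^ (2 * d) := by
      calc mulHeight₁ (u ^ d - 1) ≤ 2 ^ totalWeight K * mulHeight₁ (u ^ d) * mulHeight₁ (1 : K) :=
            mulHeight₁_sub_le _ _
        _ = 2 ^ totalWeight K * H ^ d := by rw [mulHeight₁_one, mul_one, mulHeight₁_pow, hH]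
        _ ≤ H ^ d * H ^ d := by
            apply mul_le_mul_of_nonneg_right _ (by positivity)
            rw [totalWeight_eq_finrank]
            calc (2 : ℝ) ^ Module.finrank ℚ K ≤ 2 ^ D := pow_le_pow_right₀ (by norm_num) hK
              _ ≤ (H ^ N) ^ D := pow_le_pow_left₀ (by norm_num) hN.le _
              _ = H ^ (N * D) := (pow_mul _ _ _).symm
              _ ≤ H ^ d := pow_le_pow_right₀ h1.le hND
        _ = _ := by rw [← pow_add]; congr 1; ring
    have h5 : (fv v (u ^ d - 1))⁻¹ ≤ H ^ (2 * d) := h2.trans h4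
    rwa [inv_le_iff_one_le_mul₀ h3, mul_comm] at h5
  · rw [bt_eq_one (fv_na v) hd hv, one_mul]
    exact one_le_pow₀ h1.le

/-- two elements with the same dominating place -/
theorem sep {D N d s : ℕ} (hK : Module.finrank ℚ K ≤ D) (hND : N * D ≤ d) (hd : 1 ≤ d) {u u' : K}
    (hr : NT (u / u')) (hu' : u' ≠ 0) (hN : 2 < mulHeight₁ (u / u') ^ N)
    (v : HeightOneSpectrum (𝓞 K)) (h1 : Dm v s d u) (h2 : Dm v s d u') :
    mulHeight₁ u ≤ mulHeight₁ (u / u') ^ (4 * s) ∨ mulHeight₁ u' ≤ mulHeight₁ (u / u') ^ (4 * s) := by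
  have hl := liou hK hND hd hr hN v
  obtain ⟨R, hR⟩ : ∃ R, R = mulHeight₁ (u / u') := ⟨_, rfl⟩
  rw [← hR] at hl ⊢
  have hR0 : 0 ≤ R := by rw [hR]; exact mulHeight₁_nonneg _
  have hmul : bt (fv v) d (u / u') ≤ max (bt (fv v) d u) (bt (fv v) d u') := by
    rw [div_eq_mul_inv, ← bt_inv (fv v) d hu']
    exact bt_mul (fv_na v) hd _ _
  have key : ∀ z : K, Dm v s d z → bt (fv v) d (u / u') ≤ bt (fv v) d z →
      mulHeight₁ z ≤ R ^ (4 * s) := by
    intro z hz hb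
    unfold Dm at hz
    have h3 : 1 ≤ bt (fv v) d z ^ (2 * s) * R ^ (4 * s * d) := by
      calc (1 : ℝ) ≤ (bt (fv v) d (u / u') * R ^ (2 * d)) ^ (2 * s) := one_le_pow₀ hl
        _ = bt (fv v) d (u / u') ^ (2 * s) * R ^ (4 * s * d) := by
            rw [mul_pow, ← pow_mul]
            congr 2
            ring
        _ ≤ _ := by
            apply mul_le_mul_of_nonneg_right _ (by positivity)
            exact pow_le_pow_left₀ (bt_nonneg _ _ _) hb _
    have h4 : mulHeight₁ z ^ d ≤ (R ^ (4 * s)) ^ d := by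
      have h5 : 0 ≤ mulHeight₁ z ^ d := pow_nonneg (mulHeight₁_nonneg _) _
      calc mulHeight₁ z ^ d ≤ mulHeight₁ z ^ d * (bt (fv v) d z ^ (2 * s) * R ^ (4 * s * d)) :=
            le_mul_of_one_le_right h5 h3
        _ = (bt (fv v) d z ^ (2 * s) * mulHeight₁ z ^ d) * R ^ (4 * s * d) := by ring
        _ ≤ 1 * R ^ (4 * s * d) := mul_le_mul_of_nonneg_right hz (by positivity)
        _ = _ := by rw [one_mul, pow_mul]
    exact (pow_le_pow_iff_left₀ (mulHeight₁_nonneg _) (by positivity) (by omega)).mp h4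
  rcases le_max_iff.1 hmul with h | h
  · exact Or.inl (key u h1 h)
  · exact Or.inr (key u' h2 h)

/-- domination gives a small distance -/
lemma Dm.lt_one {v : HeightOneSpectrum (𝓞 K)} {s d N : ℕ} (hd : 1 ≤ d) {u : K}
    (hN : 2 < mulHeight₁ u ^ N) (h : Dm v s d u) : bt (fv v) d u < 1 ∧ fv v u = 1 := by
  have h1 := NT.one_lt hN
  have h2 : bt (fv v) d u < 1 := by
    by_contra hcon
    push Not at hcon
    have h3 := one_le_pow₀ hcon (n := 2 * s)
    have h4 := one_lt_pow₀ h1 (by omega : d ≠ 0)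
    unfold Dm at h
    nlinarith
  refine ⟨h2, ?_⟩
  by_contra hcon
  rw [bt_eq_one (fv_na v) hd hcon] at h2
  exact lt_irrefl _ h2

/-- dominating places have large norm -/
theorem Dm.norm_large {D N d s g : ℕ} (hK : Module.finrank ℚ K ≤ D) (hd : 1 ≤ d) (hdg : d ≤ 2 ^ g)
    (hsmall : (N + 1) * (2 * s * (D * (g + 1) + 2 ^ D * cD D)) < d) {u : K}
    (hu : NT u) (hN : 2 < mulHeight₁ u ^ N) {v : HeightOneSpectrum (𝓞 K)} (h : Dm v s d u) :
    2 ^ D < Ideal.absNorm v.asIdeal := by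
  by_contra hcon
  push Not at hcon
  have h1 := NT.one_lt hN
  obtain ⟨H, hH⟩ : ∃ H, H = mulHeight₁ u := ⟨_, rfl⟩
  obtain ⟨hb, hv⟩ := h.lt_one hd hN
  unfold Dm at h
  rw [bt_unit (fv_na v) hv] at h
  rw [← hH] at h1 hN h
  obtain ⟨n, hn1, hn2⟩ := exists_nat_pow_near h1.le (by norm_num : (1 : ℝ) < 2)
  obtain ⟨X, hX⟩ : ∃ X, X = n + 1 := ⟨_, rfl⟩
  have hHX : mulHeight₁ u ≤ 2 ^ X := by rw [hX, ← hH]; exact hn2.le
  have h2X : (2 : ℝ) ^ X ≤ H ^ (N + 1) := by
    rw [hX, pow_succ, pow_succ, mul_comm]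
    exact mul_le_mul hN.le hn1 (by positivity) (by positivity)
  have hfar := fin_far D hK v u hu.2 g d X hd hdg hHX
  obtain ⟨E, hE⟩ : ∃ E, E = D * (g + 1) + 2 ^ D * cD D * X := ⟨_, rfl⟩
  have hfar2 : (1 / 2 : ℝ) ^ E ≤ fv v (u ^ d - 1) := by
    refine le_trans ?_ hfar
    apply pow_le_pow_of_le_one (by norm_num) (by norm_num)
    rw [hE]
    exact Nat.add_le_add_left (Nat.mul_le_mul_right _ (Nat.mul_le_mul_right _ hcon)) _
  have h3 : (1 / 2 : ℝ) ^ (E * (2 * s)) * H ^ d ≤ 1 := by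
    refine le_trans ?_ h
    apply mul_le_mul_of_nonneg_right _ (by positivity)
    rw [pow_mul]
    exact pow_le_pow_left₀ (by positivity) hfar2 _
  have h4 : H ^ d ≤ 2 ^ (E * (2 * s)) := by
    have h5 : (1 / 2 : ℝ) ^ (E * (2 * s)) * 2 ^ (E * (2 * s)) = 1 := by
      rw [← mul_pow]
      norm_num
    calc H ^ d = ((1 / 2 : ℝ) ^ (E * (2 * s)) * H ^ d) * 2 ^ (E * (2 * s)) := by
          calc H ^ d = H ^ d * ((1 / 2 : ℝ) ^ (E * (2 * s)) * 2 ^ (E * (2 * s))) := by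
                rw [h5, mul_one]
            _ = _ := by ring
      _ ≤ 1 * 2 ^ (E * (2 * s)) := mul_le_mul_of_nonneg_right h3 (by positivity)
      _ = _ := one_mul _
  have h6 : H ^ d ≤ H ^ ((N + 1) * (2 * s * (D * (g + 1) + 2 ^ D * cD D))) := by
    refine h4.trans ?_
    calc (2 : ℝ) ^ (E * (2 * s)) ≤ 2 ^ (X * (2 * s * (D * (g + 1) + 2 ^ D * cD D))) := by
          apply pow_le_pow_right₀ (by norm_num)
          have hX1 : 1 ≤ X := by omega
          have h7 : E ≤ X * (D * (g + 1) + 2 ^ D * cD D) := by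
            rw [hE, Nat.mul_add X (D * (g + 1)) (2 ^ D * cD D)]
            apply Nat.add_le_add
            · exact Nat.le_mul_of_pos_left _ hX1
            · rw [mul_comm X]
          calc E * (2 * s) ≤ (X * (D * (g + 1) + 2 ^ D * cD D)) * (2 * s) := Nat.mul_le_mul_right _ h7
            _ = _ := by ring
      _ = (2 ^ X) ^ (2 * s * (D * (g + 1) + 2 ^ D * cD D)) := pow_mul _ _ _
      _ ≤ (H ^ (N + 1)) ^ (2 * s * (D * (g + 1) + 2 ^ D * cD D)) :=
          pow_le_pow_left₀ (by positivity) h2X _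
      _ = _ := (pow_mul _ _ _).symm
  have h8 := pow_lt_pow_right₀ h1 hsmall
  linarith

/-- **residue classes** of elements whose `d`-th powers are close to `1` -/
theorem res_count (v : HeightOneSpectrum (𝓞 K)) {ι : Type} (I : Finset ι) (z : ι → K) {d : ℕ}
    (hd : 1 ≤ d) (hz : ∀ i ∈ I, fv v (z i) = 1) (hzd : ∀ i ∈ I, fv v (z i ^ d - 1) < 1)
    (hcard : d < I.card) : ∃ i ∈ I, ∃ j ∈ I, i ≠ j ∧ fv v (z i - z j) < 1 := by
  classical
  have hex : ∀ i : ι, ∃ b s : 𝓞 K, i ∈ I → (s ∉ v.asIdeal ∧ z i * (s : K) = (b : K)) := by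
    intro i
    by_cases hi : i ∈ I
    · obtain ⟨b, s, h1, h2⟩ := exists_rep v (hz i hi).le
      exact ⟨b, s, fun _ => ⟨h1, h2⟩⟩
    · exact ⟨0, 0, fun h => absurd h hi⟩
  choose b s hbs using hex
  have hmax : v.asIdeal.IsMaximal := v.isMaximal
  let _ : Field (𝓞 K ⧸ v.asIdeal) := Ideal.Quotient.field v.asIdeal
  let π : 𝓞 K →+* 𝓞 K ⧸ v.asIdeal := Ideal.Quotient.mk v.asIdeal
  have hs0 : ∀ i ∈ I, π (s i) ≠ 0 := by
    intro i hi h
    exact (hbs i hi).1 (Ideal.Quotient.eq_zero_iff_mem.1 h)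
  have hsK : ∀ i ∈ I, (s i : K) ≠ 0 := by
    intro i hi h
    apply (hbs i hi).1
    have h1 : s i = 0 := by exact_mod_cast h
    rw [h1]
    exact v.asIdeal.zero_mem
  have hsfv : ∀ i ∈ I, fv v (s i : K) = 1 := fun i hi => fv_eq_one_of_notMem v (hbs i hi).1
  have hmap : ∀ i ∈ I, π (b i) / π (s i) ∈ (Polynomial.nthRoots d (1 : 𝓞 K ⧸ v.asIdeal)).toFinset := by
    intro i hi
    rw [Multiset.mem_toFinset, Polynomial.mem_nthRoots (by omega)]
    rw [div_pow, div_eq_one_iff_eq (pow_ne_zero _ (hs0 i hi)), ← map_pow, ← map_pow,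
      Ideal.Quotient.eq, ← fv_lt_one_iff]
    have h1 : ((b i ^ d - s i ^ d : 𝓞 K) : K) = (z i ^ d - 1) * (s i : K) ^ d := by
      have h2 : ((b i ^ d - s i ^ d : 𝓞 K) : K) = (b i : K) ^ d - (s i : K) ^ d := by
        show algebraMap (𝓞 K) K (b i ^ d - s i ^ d) =
          (algebraMap (𝓞 K) K (b i)) ^ d - (algebraMap (𝓞 K) K (s i)) ^ d
        rw [map_sub, map_pow, map_pow]
      rw [h2, ← (hbs i hi).2]
      ring
    rw [h1, map_mul, map_pow, hsfv i hi, one_pow, mul_one]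
    exact hzd i hi
  have hcard2 : (Polynomial.nthRoots d (1 : 𝓞 K ⧸ v.asIdeal)).toFinset.card < I.card := by
    refine lt_of_le_of_lt ?_ hcard
    exact (Multiset.toFinset_card_le _).trans (Polynomial.card_nthRoots d _)
  obtain ⟨i, hi, j, hj, hij, heq⟩ := Finset.exists_ne_map_eq_of_card_lt_of_maps_to hcard2 hmap
  refine ⟨i, hi, j, hj, hij, ?_⟩
  rw [div_eq_div_iff (hs0 i hi) (hs0 j hj), ← map_mul, ← map_mul, Ideal.Quotient.eq,
    ← fv_lt_one_iff] at heq
  have h1 : ((b i * s j - b j * s i : 𝓞 K) : K) = (z i - z j) * ((s i : K) * (s j : K)) := by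
    have h2 : ((b i * s j - b j * s i : 𝓞 K) : K) = (b i : K) * (s j : K) - (b j : K) * (s i : K) := by
      show algebraMap (𝓞 K) K (b i * s j - b j * s i) =
        algebraMap (𝓞 K) K (b i) * algebraMap (𝓞 K) K (s j) -
          algebraMap (𝓞 K) K (b j) * algebraMap (𝓞 K) K (s i)
      rw [map_sub, map_mul, map_mul]
    rw [h2, ← (hbs i hi).2, ← (hbs j hj).2]
    ring
  rw [h1, map_mul, map_mul, hsfv i hi, hsfv j hj, mul_one, mul_one] at heq
  exact heq

end Run7.h197.X
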