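import Pool.Agent.Run7.h197.X.Good

/-!
**Periodic points** of `φ (z ^ d)` and chordal distances.
-/

set_option autoImplicit false

namespace Run7.h197.X

open Finset Polynomial

/-- The self-map of the projective line over `K` given by `φ (z ^ d)`, where `φ = p / q` has degree
`e`, in homogeneous coordinates. -/
noncomputable def powMap {K : Type} [Field K] (d e : ℕ) (p q : K[X]) : K × K → K × K :=
  fun v => (form e p (v.1 ^ d, v.2 ^ d), form e q (v.1 ^ d, v.2 ^ d))

/-- The periodic points in `K` of the self-map of the projective line given by `φ (z ^ d)`, where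
`φ = p / q` has degree `e`: some iterate maps the point `(x : 1)` to itself. -/
def Periodic {K : Type} [Field K] (d e : ℕ) (p q : K[X]) : Set K :=
  {x | ∃ n : ℕ, 1 ≤ n ∧ ∃ c : K, c ≠ 0 ∧ (powMap d e p q)^[n] (x, 1) = (c * x, c)}

section dist
variable {K : Type} [Field K] (w : AbsoluteValue K ℝ)

/-- the norm of a vector -/
noncomputable def nm (P : K × K) : ℝ := max (w P.1) (w P.2)

/-- the chordal distance -/
noncomputable def cd (P Q : K × K) : ℝ := w (P.1 * Q.2 - P.2 * Q.1) / (nm w P * nm w Q)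

lemma nm_nonneg (P : K × K) : 0 ≤ nm w P := le_max_of_le_left (w.nonneg _)

lemma nm_smul (c : K) (P : K × K) : nm w (c * P.1, c * P.2) = w c * nm w P := by
  unfold nm
  simp only [map_mul]
  rw [mul_max_of_nonneg _ _ (w.nonneg c)]

lemma cd_nonneg (P Q : K × K) : 0 ≤ cd w P Q :=
  div_nonneg (w.nonneg _) (mul_nonneg (nm_nonneg w P) (nm_nonneg w Q))

lemma cd_smul {c c' : K} (hc : c ≠ 0) (hc' : c' ≠ 0) (P Q : K × K) :
    cd w (c * P.1, c * P.2) (c' * Q.1, c' * Q.2) = cd w P Q := by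
  unfold cd
  rw [nm_smul, nm_smul]
  simp only
  have h1 : c * P.1 * (c' * Q.2) - c * P.2 * (c' * Q.1) = (c * c') * (P.1 * Q.2 - P.2 * Q.1) := by
    ring
  rw [h1, map_mul, map_mul]
  have h2 : w c ≠ 0 := (w.pos hc).ne'
  have h3 : w c' ≠ 0 := (w.pos hc').ne'
  rw [show w c * nm w P * (w c' * nm w Q) = (w c * w c') * (nm w P * nm w Q) by ring,
    mul_div_mul_left _ _ (mul_ne_zero h2 h3)]

end dist

section hom
variable {K : Type} [Field K]

lemma form_smul (e : ℕ) (p : K[X]) (c : K) (v : K × K) :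
    form e p (c * v.1, c * v.2) = c ^ e * form e p v := by
  unfold form
  rw [Finset.mul_sum]
  refine Finset.sum_congr rfl fun i hi => ?_
  rw [Finset.mem_range] at hi
  simp only
  rw [mul_pow, mul_pow, show c ^ e = c ^ i * c ^ (e - i) from by
    rw [← pow_add]
    congr 1
    omega]
  ring

lemma form_C_mul (e : ℕ) (p : K[X]) (c : K) (v : K × K) : form e (C c * p) v = c * form e p v := by
  unfold form
  rw [Finset.mul_sum]
  refine Finset.sum_congr rfl fun i _ => ?_
  rw [coeff_C_mul]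
  ring

lemma powMap_smul (d e : ℕ) (p q : K[X]) (c : K) (v : K × K) :
    powMap d e p q (c * v.1, c * v.2) =
      (c ^ (d * e) * (powMap d e p q v).1, c ^ (d * e) * (powMap d e p q v).2) := by
  unfold powMap
  simp only [mul_pow]
  rw [form_smul e p (c ^ d) (v.1 ^ d, v.2 ^ d), form_smul e q (c ^ d) (v.1 ^ d, v.2 ^ d), ← pow_mul]

lemma iter_smul (d e : ℕ) (p q : K[X]) (n : ℕ) : ∀ (c : K), c ≠ 0 → ∃ c' : K, c' ≠ 0 ∧ ∀ v : K × K,
    (powMap d e p q)^[n] (c * v.1, c * v.2) =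
      (c' * ((powMap d e p q)^[n] v).1, c' * ((powMap d e p q)^[n] v).2) := by
  induction n with
  | zero =>
    intro c hc
    exact ⟨c, hc, fun v => rfl⟩
  | succ n ih =>
    intro c hc
    obtain ⟨c', hc', h⟩ := ih (c ^ (d * e)) (pow_ne_zero _ hc)
    refine ⟨c', hc', fun v => ?_⟩
    rw [Function.iterate_succ_apply, Function.iterate_succ_apply, powMap_smul]
    exact h _

lemma per_mul {d e : ℕ} {p q : K[X]} {m : ℕ} {P : K × K} {c : K} (hc : c ≠ 0)
    (h : (powMap d e p q)^[m] P = (c * P.1, c * P.2)) (n : ℕ) : ∃ c' : K, c' ≠ 0 ∧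
    (powMap d e p q)^[m * n] P = (c' * P.1, c' * P.2) := by
  induction n with
  | zero => exact ⟨1, one_ne_zero, by rw [mul_zero, one_mul, one_mul]; rfl⟩
  | succ n ih =>
    obtain ⟨c', hc', h'⟩ := ih
    obtain ⟨c'', hc'', h''⟩ := iter_smul d e p q m c' hc'
    refine ⟨c'' * c, mul_ne_zero hc'' hc, ?_⟩
    rw [Nat.mul_succ, Nat.add_comm, Function.iterate_add_apply, h', h'', h]
    simp only [mul_assoc]

end hom

section NA
variable {K : Type} [Field K] {w : AbsoluteValue K ℝ} (hw : ∀ a b, w (a + b) ≤ max (w a) (w b))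
include hw

lemma cd_form {e : ℕ} (he : 1 ≤ e) {p q : K[X]} (hp : p.natDegree ≤ e) (hq : q.natDegree ≤ e)
    (hg : GoodReduction w e p q) {P Q : K × K} (hP : 0 < nm w P) (hQ : 0 < nm w Q) :
    0 < nm w (form e p P, form e q P) ∧
    cd w (form e p P, form e q P) (form e p Q, form e q Q) ≤ cd w P Q := by
  obtain ⟨c, hc, hci, hci', hres⟩ := hg
  have hf : (C c * p).natDegree ≤ e := (natDegree_C_mul_le _ _).trans hp
  have hg : (C c * q).natDegree ≤ e := (natDegree_C_mul_le _ _).trans hq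
  have hfi : ∀ i, w ((C c * p).coeff i) ≤ 1 := fun i => by rw [coeff_C_mul]; exact hci i
  have hgi : ∀ i, w ((C c * q).coeff i) ≤ 1 := fun i => by rw [coeff_C_mul]; exact hci' i
  have hnorm : ∀ P : K × K, w c * nm w (form e p P, form e q P) = nm w P ^ e := by
    intro P
    have h1 := nm_smul w c (form e p P, form e q P)
    simp only at h1
    rw [← h1, ← form_C_mul, ← form_C_mul]
    apply le_antisymm
    · unfold nm
      exact max_le (form_up hw hfi P) (form_up hw hgi P)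
    · exact form_low hw he hf hg hfi hgi hres P
  have hc0 : 0 < w c := w.pos hc
  have hpos : ∀ P : K × K, 0 < nm w P → 0 < nm w (form e p P, form e q P) := by
    intro P hP
    have h1 : 0 < w c * nm w (form e p P, form e q P) := by
      rw [hnorm]
      positivity
    exact (mul_pos_iff_of_pos_left hc0).1 h1
  refine ⟨hpos P hP, ?_⟩
  have h2 := cd_smul w hc hc (form e p P, form e q P) (form e p Q, form e q Q)
  rw [← h2]
  unfold cd
  rw [nm_smul, nm_smul, hnorm, hnorm]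
  simp only
  rw [← form_C_mul e p c P, ← form_C_mul e q c P, ← form_C_mul e p c Q, ← form_C_mul e q c Q]
  rw [div_le_div_iff₀ (by positivity) (by positivity)]
  have h3 := wedge_up hw he hfi hgi P Q
  calc w (form e (C c * p) P * form e (C c * q) Q - form e (C c * q) P * form e (C c * p) Q) *
        (nm w P * nm w Q)
      ≤ (w (P.1 * Q.2 - P.2 * Q.1) * (nm w P * nm w Q) ^ (e - 1)) * (nm w P * nm w Q) :=
        mul_le_mul_of_nonneg_right h3 (by positivity)
    _ = w (P.1 * Q.2 - P.2 * Q.1) * (nm w P * nm w Q) ^ (e - 1 + 1) := by rw [pow_succ]; ring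
    _ = w (P.1 * Q.2 - P.2 * Q.1) * (nm w P ^ e * nm w Q ^ e) := by
        rw [Nat.sub_add_cancel he, mul_pow]

omit hw in
lemma nm_pow (d : ℕ) (P : K × K) : nm w (P.1 ^ d, P.2 ^ d) = nm w P ^ d := by
  unfold nm
  simp only [map_pow]
  rcases le_total (w P.1) (w P.2) with h | h
  · rw [max_eq_right h, max_eq_right (pow_le_pow_left₀ (w.nonneg _) h _)]
  · rw [max_eq_left h, max_eq_left (pow_le_pow_left₀ (w.nonneg _) h _)]

lemma cd_pow {d : ℕ} (hd : 1 ≤ d) {P Q : K × K} (hP : 0 < nm w P) (hQ : 0 < nm w Q) :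
    cd w (P.1 ^ d, P.2 ^ d) (Q.1 ^ d, Q.2 ^ d) ≤ cd w P Q := by
  unfold cd
  rw [nm_pow, nm_pow]
  simp only
  rw [div_le_div_iff₀ (by positivity) (by positivity)]
  have h2 : w (P.1 * Q.2) ≤ nm w P * nm w Q := by
    rw [map_mul]
    exact mul_le_mul (le_max_left _ _) (le_max_right _ _) (w.nonneg _) hP.le
  have h3 : w (P.2 * Q.1) ≤ nm w P * nm w Q := by
    rw [map_mul]
    exact mul_le_mul (le_max_right _ _) (le_max_left _ _) (w.nonneg _) hP.le
  have h4 := pow_sub_bd hw h2 h3 hd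
  rw [mul_pow, mul_pow] at h4
  calc w (P.1 ^ d * Q.2 ^ d - P.2 ^ d * Q.1 ^ d) * (nm w P * nm w Q)
      ≤ (w (P.1 * Q.2 - P.2 * Q.1) * (nm w P * nm w Q) ^ (d - 1)) * (nm w P * nm w Q) :=
        mul_le_mul_of_nonneg_right h4 (by positivity)
    _ = w (P.1 * Q.2 - P.2 * Q.1) * (nm w P * nm w Q) ^ (d - 1 + 1) := by rw [pow_succ]; ring
    _ = w (P.1 * Q.2 - P.2 * Q.1) * (nm w P ^ d * nm w Q ^ d) := by
        rw [Nat.sub_add_cancel hd, mul_pow]

lemma cd_step {d e : ℕ} (hd : 1 ≤ d) (he : 1 ≤ e) {p q : K[X]} (hp : p.natDegree ≤ e)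
    (hq : q.natDegree ≤ e) (hg : GoodReduction w e p q) {P Q : K × K} (hP : 0 < nm w P)
    (hQ : 0 < nm w Q) : 0 < nm w (powMap d e p q P) ∧
    cd w (powMap d e p q P) (powMap d e p q Q) ≤ cd w (P.1 ^ d, P.2 ^ d) (Q.1 ^ d, Q.2 ^ d) ∧
    cd w (powMap d e p q P) (powMap d e p q Q) ≤ cd w P Q := by
  have hP' : 0 < nm w (P.1 ^ d, P.2 ^ d) := by rw [nm_pow]; positivity
  have hQ' : 0 < nm w (Q.1 ^ d, Q.2 ^ d) := by rw [nm_pow]; positivity
  obtain ⟨h1, h2⟩ := cd_form hw he hp hq hg hP' hQ'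
  exact ⟨h1, h2, h2.trans (cd_pow hw hd hP hQ)⟩

lemma cd_iter {d e : ℕ} (hd : 1 ≤ d) (he : 1 ≤ e) {p q : K[X]} (hp : p.natDegree ≤ e)
    (hq : q.natDegree ≤ e) (hg : GoodReduction w e p q) (n : ℕ) : ∀ {P Q : K × K}, 0 < nm w P →
    0 < nm w Q → cd w ((powMap d e p q)^[n] P) ((powMap d e p q)^[n] Q) ≤ cd w P Q := by
  induction n with
  | zero =>
    intro P Q _ _
    exact le_rfl
  | succ n ih =>
    intro P Q hP hQ
    rw [Function.iterate_succ_apply, Function.iterate_succ_apply]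
    obtain ⟨h1, _, h3⟩ := cd_step hw hd he hp hq hg hP hQ
    obtain ⟨h1', _, _⟩ := cd_step hw hd he hp hq hg hQ hP
    exact (ih h1 h1').trans h3

/-- equality along cycles -/
lemma cd_per {d e : ℕ} (hd : 1 ≤ d) (he : 1 ≤ e) {p q : K[X]} (hp : p.natDegree ≤ e)
    (hq : q.natDegree ≤ e) (hg : GoodReduction w e p q) {x y : K} (hx : x ∈ Periodic d e p q)
    (hy : y ∈ Periodic d e p q) :
    cd w (x, 1) (y, 1) ≤ cd w (x ^ d, 1) (y ^ d, 1) := by
  obtain ⟨m, hm, c, hc, hxc⟩ := hx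
  obtain ⟨n, hn, c', hc', hyc⟩ := hy
  have hP : ∀ x : K, 0 < nm w (x, 1) := by
    intro x
    unfold nm
    simp only [map_one]
    exact lt_of_lt_of_le one_pos (le_max_right _ _)
  obtain ⟨a, ha, hxa⟩ := per_mul (P := (x, 1)) hc (by rw [hxc, mul_one]) n
  obtain ⟨b, hb, hyb⟩ := per_mul (P := (y, 1)) hc' (by rw [hyc, mul_one]) m
  rw [mul_comm n m] at hyb
  obtain ⟨L, hL⟩ : ∃ L, L + 1 = m * n := ⟨m * n - 1, by
    have := Nat.mul_pos hm hn
    omega⟩
  rw [← hL, Function.iterate_succ_apply] at hxa hyb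
  have h1 := cd_smul w ha hb (x, 1) (y, 1)
  rw [← hxa, ← hyb] at h1
  obtain ⟨g1, g2, _⟩ := cd_step hw hd he hp hq hg (hP x) (hP y)
  obtain ⟨g1', _, _⟩ := cd_step hw hd he hp hq hg (hP y) (hP x)
  have h2 := cd_iter hw hd he hp hq hg L g1 g1'
  rw [h1] at h2
  have h3 := h2.trans g2
  simp only [one_pow] at h3
  exact h3

/-- the distances of the powers of the quotient -/
lemma bt_of_cd {d : ℕ} (hd : 1 ≤ d) {x y : K} (hy : y ≠ 0)
    (h : cd w (x, 1) (y, 1) ≤ cd w (x ^ d, 1) (y ^ d, 1)) :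
    bt w 1 (x / y) ≤ bt w d (x / y) := by
  by_cases hu : w (x / y) = 1
  · have hy0 : 0 < w y := w.pos hy
    have hxy : w x = w y := by
      rw [map_div₀, div_eq_one_iff_eq hy0.ne'] at hu
      exact hu
    rw [bt_unit hw hu, bt_unit hw hu]
    have h1 : ∀ n : ℕ, w ((x / y) ^ n - 1) = w (x ^ n - y ^ n) / w y ^ n := by
      intro n
      rw [← map_pow w, ← map_div₀]
      congr 1
      have := pow_ne_zero n hy
      rw [div_pow]
      field_simp
    rw [h1, h1, pow_one, pow_one, pow_one]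
    unfold cd nm at h
    simp only [map_one, one_mul, mul_one, map_pow] at h
    rw [hxy] at h
    obtain ⟨m, hm⟩ : ∃ m, m = w y := ⟨_, rfl⟩
    rw [← hm] at h hy0 ⊢
    rcases le_total m 1 with h2 | h2
    · rw [max_eq_right h2, max_eq_right (pow_le_one₀ hy0.le h2), mul_one, div_one, div_one] at h
      have h3 : m ^ d ≤ m := pow_le_of_le_one hy0.le h2 (by omega)
      calc w (x - y) / m ≤ w (x ^ d - y ^ d) / m := by
            apply div_le_div_of_nonneg_right h hy0.le
        _ ≤ _ := div_le_div_of_nonneg_left (w.nonneg _) (by positivity) h3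
    · rw [max_eq_left h2, max_eq_left (one_le_pow₀ h2)] at h
      rw [div_le_div_iff₀ (by positivity) (by positivity)] at h ⊢
      have h3 : m ≤ m ^ d := le_self_pow₀ h2 (by omega)
      have h4 : w (x - y) * m ^ d * m ^ d ≤ w (x ^ d - y ^ d) * m * m ^ d := by
        calc w (x - y) * m ^ d * m ^ d = w (x - y) * (m ^ d * m ^ d) := by ring
          _ ≤ w (x ^ d - y ^ d) * (m * m) := h
          _ = w (x ^ d - y ^ d) * m * m := by ring
          _ ≤ _ := by
              apply mul_le_mul_of_nonneg_left h3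
              have := w.nonneg (x ^ d - y ^ d)
              positivity
      exact le_of_mul_le_mul_right h4 (by positivity)
  · rw [bt_eq_one hw hd hu]
    exact bt_le_one hw _ _

end NA

end Run7.h197.X
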