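import Pool.Agent.Run7.h197.X.Beta

/-!
**Good reduction**: rational functions of good reduction do not increase the chordal distance.
-/

set_option autoImplicit false

namespace Run7.h197.X

open Finset Polynomial

/-- The binary form of degree `e` with the dehomogenization `p`. -/
noncomputable def form {K : Type} [Field K] (e : ℕ) (p : K[X]) (v : K × K) : K :=
  ∑ i ∈ Finset.range (e + 1), p.coeff i * v.1 ^ i * v.2 ^ (e - i)

/-- The rational function `p / q` of degree `e` has good reduction at the absolute value `w`: after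
multiplication with a common factor `p` and `q` are integral and their resultant (as forms of degree
`e`) is a unit. -/
def GoodReduction {K : Type} [Field K] (w : AbsoluteValue K ℝ) (e : ℕ) (p q : K[X]) : Prop :=
  ∃ c : K, c ≠ 0 ∧ (∀ i, w (c * p.coeff i) ≤ 1) ∧ (∀ i, w (c * q.coeff i) ≤ 1) ∧
    w ((C c * p).resultant (C c * q) e e) = 1

section gen
variable {R : Type} [CommRing R]

lemma exists_gen (f g : R[X]) {m n : ℕ} (hf : f.natDegree ≤ m) (hg : g.natDegree ≤ n) (P : R[X])
    (hP : P.degree < ((m + n : ℕ) : WithBot ℕ)) :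
    ∃ a b : R[X], a.degree < n ∧ b.degree < m ∧ f * a + g * b = C (f.resultant g m n) * P := by
  let X := adjSylvester f g (m := m) (n := n) ⟨P, Polynomial.mem_degreeLT.2 hP⟩
  have h : ((sylvesterMap f g hf hg X)).1 = _ :=
    congr(($(sylveserMap_comp_adjSylvester f g hf hg) _).1)
  refine ⟨X.2, X.1, Polynomial.mem_degreeLT.1 X.2.2, Polynomial.mem_degreeLT.1 X.1.2, ?_⟩
  simpa [Algebra.smul_def] using h

end gen

section NA
variable {K : Type} [Field K] {w : AbsoluteValue K ℝ} (hw : ∀ a b, w (a + b) ≤ max (w a) (w b))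

lemma na_sum_le (hw : ∀ a b, w (a + b) ≤ max (w a) (w b)) {ι : Type} (s : Finset ι) (f : ι → K)
    {r : ℝ} (hr : 0 ≤ r) (h : ∀ i ∈ s, w (f i) ≤ r) : w (∑ i ∈ s, f i) ≤ r := by
  classical
  induction s using Finset.induction_on with
  | empty =>
    rw [Finset.sum_empty, map_zero]
    exact hr
  | insert a s ha ih =>
    rw [Finset.sum_insert ha]
    refine (hw _ _).trans (max_le (h a (Finset.mem_insert_self a s)) ?_)
    exact ih fun i hi => h i (Finset.mem_insert_of_mem hi)

/-- the integral elements -/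
def Ow (w : AbsoluteValue K ℝ) (hw : ∀ a b, w (a + b) ≤ max (w a) (w b)) : Subring K where
  carrier := {x | w x ≤ 1}
  mul_mem' := by
    intro a b ha hb
    show w (a * b) ≤ 1
    rw [map_mul]
    exact mul_le_one₀ ha (w.nonneg _) hb
  one_mem' := by
    show w 1 ≤ 1
    rw [map_one]
  add_mem' := by
    intro a b ha hb
    exact (hw a b).trans (max_le ha hb)
  zero_mem' := by
    show w 0 ≤ 1
    rw [map_zero]
    exact zero_le_one
  neg_mem' := by
    intro a ha
    show w (-a) ≤ 1
    rw [AbsoluteValue.map_neg]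
    exact ha

include hw

/-- the value of an integral polynomial -/
lemma eval_bd {a : K[X]} (ha : ∀ i, w (a.coeff i) ≤ 1) {n : ℕ} (hn : a.degree < n) (hn1 : 1 ≤ n)
    (t : K) : w (a.eval t) ≤ max (w t) 1 ^ (n - 1) := by
  have hn' : a.natDegree < n := by
    by_cases h0 : a = 0
    · rw [h0, natDegree_zero]
      omega
    · exact (natDegree_lt_iff_degree_lt h0).2 hn
  rw [Polynomial.eval_eq_sum_range' hn']
  have hM : (1 : ℝ) ≤ max (w t) 1 := le_max_right _ _
  apply na_sum_le hw _ _ (by positivity)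
  intro i hi
  rw [Finset.mem_range] at hi
  rw [map_mul, map_pow]
  calc w (a.coeff i) * w t ^ i ≤ 1 * max (w t) 1 ^ i := by
        apply mul_le_mul (ha i) (pow_le_pow_left₀ (w.nonneg _) (le_max_left _ _) _)
          (pow_nonneg (w.nonneg _) _) zero_le_one
    _ = max (w t) 1 ^ i := one_mul _
    _ ≤ _ := pow_le_pow_right₀ hM (by omega)

/-- Bezout identities with integral coefficients -/
lemma exists_gen_int {f g : K[X]} {e : ℕ} (hf : f.natDegree ≤ e) (hg : g.natDegree ≤ e)
    (hfi : ∀ i, w (f.coeff i) ≤ 1) (hgi : ∀ i, w (g.coeff i) ≤ 1) (k : ℕ) (hk : k < e + e) :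
    ∃ a b : K[X], (∀ i, w (a.coeff i) ≤ 1) ∧ (∀ i, w (b.coeff i) ≤ 1) ∧ a.degree < e ∧
      b.degree < e ∧ f * a + g * b = C (f.resultant g e e) * X ^ k := by
  classical
  obtain ⟨T, hT⟩ : ∃ T, T = Ow w hw := ⟨_, rfl⟩
  have hTm : ∀ x : K, x ∈ T ↔ w x ≤ 1 := by
    intro x
    rw [hT]
    rfl
  have lift : ∀ f : K[X], (∀ i, w (f.coeff i) ≤ 1) → ∃ F : Polynomial T, F.map T.subtype = f ∧
      F.natDegree = f.natDegree := by
    intro f hf
    have hc : (↑f.coeffs : Set K) ⊆ T := by
      intro x hx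
      rw [Finset.mem_coe, Polynomial.mem_coeffs_iff] at hx
      obtain ⟨n, _, rfl⟩ := hx
      exact (hTm _).2 (hf n)
    refine ⟨f.toSubring T hc, Polynomial.map_toSubring f T hc, Polynomial.natDegree_toSubring f T hc⟩
  obtain ⟨F, hF, hFd⟩ := lift f hfi
  obtain ⟨G, hG, hGd⟩ := lift g hgi
  obtain ⟨a, b, ha, hb, hab⟩ := exists_gen F G (m := e) (n := e) (by omega) (by omega) (X ^ k : T[X])
    (by
      refine (Polynomial.degree_X_pow_le _).trans_lt ?_
      exact_mod_cast hk)
  refine ⟨a.map T.subtype, b.map T.subtype, ?_, ?_, ?_, ?_, ?_⟩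
  · intro i
    rw [Polynomial.coeff_map]
    exact (hTm _).1 (a.coeff i).2
  · intro i
    rw [Polynomial.coeff_map]
    exact (hTm _).1 (b.coeff i).2
  · exact lt_of_le_of_lt Polynomial.degree_map_le ha
  · exact lt_of_le_of_lt Polynomial.degree_map_le hb
  · have h := congrArg (Polynomial.map T.subtype) hab
    rw [Polynomial.map_add, Polynomial.map_mul, Polynomial.map_mul, Polynomial.map_mul,
      Polynomial.map_C, Polynomial.map_pow, Polynomial.map_X, hF, hG] at h
    rw [h, ← Polynomial.resultant_map_map, hF, hG]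

/-- two summands -/
lemma one_le_of_two {x y a b r : K} {R : ℝ} (hr : w r = R) (ha : w a ≤ 1)
    (hb : w b ≤ 1) (h : x * a + y * b = r) : R ≤ max (w x) (w y) := by
  have h1 := hw (x * a) (y * b)
  rw [h, map_mul, map_mul, hr] at h1
  refine h1.trans (max_le_max ?_ ?_)
  · exact mul_le_of_le_one_right (w.nonneg _) ha
  · exact mul_le_of_le_one_right (w.nonneg _) hb

lemma low_aff {f g : K[X]} {e : ℕ} (he : 1 ≤ e) (hf : f.natDegree ≤ e) (hg : g.natDegree ≤ e)
    (hfi : ∀ i, w (f.coeff i) ≤ 1) (hgi : ∀ i, w (g.coeff i) ≤ 1)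
    (hres : w (f.resultant g e e) = 1) {t : K} (ht : w t ≤ 1) :
    1 ≤ max (w (f.eval t)) (w (g.eval t)) := by
  obtain ⟨a, b, ha, hb, had, hbd, hab⟩ := exists_gen_int hw hf hg hfi hgi 0 (by omega)
  have h := congrArg (Polynomial.eval t) hab
  rw [eval_add, eval_mul, eval_mul, eval_mul, eval_C, pow_zero, eval_one, mul_one] at h
  refine one_le_of_two hw hres ?_ ?_ h
  · have := eval_bd hw ha had he t
    rwa [max_eq_right ht, one_pow] at this
  · have := eval_bd hw hb hbd he t
    rwa [max_eq_right ht, one_pow] at this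

lemma low_inf {f g : K[X]} {e : ℕ} (he : 1 ≤ e) (hf : f.natDegree ≤ e) (hg : g.natDegree ≤ e)
    (hfi : ∀ i, w (f.coeff i) ≤ 1) (hgi : ∀ i, w (g.coeff i) ≤ 1)
    (hres : w (f.resultant g e e) = 1) {t : K} (ht : 1 ≤ w t) :
    w t ^ e ≤ max (w (f.eval t)) (w (g.eval t)) := by
  obtain ⟨a, b, ha, hb, had, hbd, hab⟩ := exists_gen_int hw hf hg hfi hgi (2 * e - 1) (by omega)
  have h := congrArg (Polynomial.eval t) hab
  rw [eval_add, eval_mul, eval_mul, eval_mul, eval_C, eval_pow, eval_X] at h
  have h1 := hw (f.eval t * a.eval t) (g.eval t * b.eval t)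
  rw [h, map_mul, map_mul, map_mul, hres, one_mul, map_pow] at h1
  have hA := eval_bd hw ha had he t
  have hB := eval_bd hw hb hbd he t
  rw [max_eq_left ht] at hA hB
  have ht0 : 0 < w t := by linarith
  have h2 : w t ^ (2 * e - 1) ≤ max (w (f.eval t)) (w (g.eval t)) * w t ^ (e - 1) := by
    refine h1.trans (max_le ?_ ?_)
    · exact mul_le_mul (le_max_left _ _) hA (w.nonneg _) (le_max_of_le_left (w.nonneg _))
    · exact mul_le_mul (le_max_right _ _) hB (w.nonneg _) (le_max_of_le_left (w.nonneg _))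
  have h3 : w t ^ (2 * e - 1) = w t ^ e * w t ^ (e - 1) := by
    rw [← pow_add]
    congr 1
    omega
  rw [h3] at h2
  exact le_of_mul_le_mul_right h2 (by positivity)

lemma low_infty {f g : K[X]} {e : ℕ} (he : 1 ≤ e) (hf : f.natDegree ≤ e) (hg : g.natDegree ≤ e)
    (hfi : ∀ i, w (f.coeff i) ≤ 1) (hgi : ∀ i, w (g.coeff i) ≤ 1)
    (hres : w (f.resultant g e e) = 1) :
    1 ≤ max (w (f.coeff e)) (w (g.coeff e)) := by
  obtain ⟨a, b, ha, hb, had, hbd, hab⟩ := exists_gen_int hw hf hg hfi hgi (e + (e - 1)) (by omega)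
  have hna : ∀ a : K[X], a.degree < e → a.natDegree ≤ e - 1 := by
    intro a ha
    by_cases h0 : a = 0
    · rw [h0, natDegree_zero]
      omega
    · have := (natDegree_lt_iff_degree_lt h0).2 ha
      omega
  have h := congrArg (fun P : K[X] => P.coeff (e + (e - 1))) hab
  simp only [coeff_add, coeff_C_mul, coeff_X_pow, if_true, mul_one] at h
  rw [Polynomial.coeff_mul_add_eq_of_natDegree_le hf (hna a had),
    Polynomial.coeff_mul_add_eq_of_natDegree_le hg (hna b hbd)] at h
  exact one_le_of_two hw hres (ha _) (hb _) h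

/-- lower bound for the norm of the image -/
lemma form_low {f g : K[X]} {e : ℕ} (he : 1 ≤ e) (hf : f.natDegree ≤ e) (hg : g.natDegree ≤ e)
    (hfi : ∀ i, w (f.coeff i) ≤ 1) (hgi : ∀ i, w (g.coeff i) ≤ 1)
    (hres : w (f.resultant g e e) = 1) (v : K × K) :
    max (w v.1) (w v.2) ^ e ≤ max (w (form e f v)) (w (form e g v)) := by
  obtain ⟨x, y⟩ := v
  simp only
  by_cases hy : y = 0
  · have hform : ∀ f : K[X], form e f (x, y) = f.coeff e * x ^ e := by
      intro f
      unfold form
      rw [Finset.sum_range_succ, Finset.sum_eq_zero, zero_add, Nat.sub_self, pow_zero, mul_one]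
      intro i hi
      rw [Finset.mem_range] at hi
      simp only
      rw [hy, zero_pow (by omega), mul_zero]
    rw [hform, hform, hy, map_zero, max_eq_left (w.nonneg _), map_mul, map_mul, map_pow,
      ← max_mul_of_nonneg _ _ (pow_nonneg (w.nonneg _) _)]
    exact le_mul_of_one_le_left (pow_nonneg (w.nonneg _) _) (low_infty hw he hf hg hfi hgi hres)
  · have hform : ∀ f : K[X], f.natDegree ≤ e → form e f (x, y) = f.eval (x / y) * y ^ e := by
      intro f hf
      unfold form
      rw [Polynomial.eval_eq_sum_range' (by omega : f.natDegree < e + 1), Finset.sum_mul]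
      refine Finset.sum_congr rfl fun i hi => ?_
      rw [Finset.mem_range] at hi
      simp only
      rw [div_pow, show y ^ e = y ^ i * y ^ (e - i) from by
        rw [← pow_add]
        congr 1
        omega]
      have := pow_ne_zero i hy
      field_simp
    have hy0 : 0 < w y := w.pos hy
    rw [hform f hf, hform g hg, map_mul, map_mul, map_pow,
      ← max_mul_of_nonneg _ _ (pow_nonneg (w.nonneg _) _)]
    rcases le_total (w x) (w y) with h | h
    · rw [max_eq_right h]
      apply le_mul_of_one_le_left (pow_nonneg (w.nonneg _) _)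
      apply low_aff hw he hf hg hfi hgi hres
      rw [map_div₀, div_le_one hy0]
      exact h
    · rw [max_eq_left h]
      have h1 := low_inf hw he hf hg hfi hgi hres (t := x / y) (by
        rw [map_div₀, one_le_div hy0]
        exact h)
      calc w x ^ e = w (x / y) ^ e * w y ^ e := by
            rw [map_div₀, div_pow]
            have := pow_pos hy0 e
            field_simp
        _ ≤ _ := mul_le_mul_of_nonneg_right h1 (pow_nonneg (w.nonneg _) _)

lemma form_up {f : K[X]} {e : ℕ} (hfi : ∀ i, w (f.coeff i) ≤ 1) (v : K × K) :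
    w (form e f v) ≤ max (w v.1) (w v.2) ^ e := by
  unfold form
  have hM : 0 ≤ max (w v.1) (w v.2) := le_max_of_le_left (w.nonneg _)
  apply na_sum_le hw _ _ (by positivity)
  intro i hi
  rw [Finset.mem_range] at hi
  rw [map_mul, map_mul, map_pow, map_pow]
  calc w (f.coeff i) * w v.1 ^ i * w v.2 ^ (e - i)
      ≤ 1 * max (w v.1) (w v.2) ^ i * max (w v.1) (w v.2) ^ (e - i) := by
        apply mul_le_mul _ (pow_le_pow_left₀ (w.nonneg _) (le_max_right _ _) _)
          (pow_nonneg (w.nonneg _) _) (by positivity)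
        exact mul_le_mul (hfi i) (pow_le_pow_left₀ (w.nonneg _) (le_max_left _ _) _)
          (pow_nonneg (w.nonneg _) _) zero_le_one
    _ = _ := by
        rw [one_mul, ← pow_add]
        congr 1
        omega

/-- differences of powers -/
lemma pow_sub_bd {a b : K} {M : ℝ} (ha : w a ≤ M) (hb : w b ≤ M) {n : ℕ} (hn : 1 ≤ n) :
    w (a ^ n - b ^ n) ≤ w (a - b) * M ^ (n - 1) := by
  have hM : 0 ≤ M := (w.nonneg a).trans ha
  have h : a ^ n - b ^ n = (∑ i ∈ Finset.range n, a ^ i * b ^ (n - 1 - i)) * (a - b) :=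
    (Commute.geom_sum₂_mul (Commute.all a b) n).symm
  rw [h, map_mul, mul_comm]
  apply mul_le_mul_of_nonneg_left _ (w.nonneg _)
  apply na_sum_le hw _ _ (by positivity)
  intro i hi
  rw [Finset.mem_range] at hi
  rw [map_mul, map_pow, map_pow]
  calc w a ^ i * w b ^ (n - 1 - i) ≤ M ^ i * M ^ (n - 1 - i) := by
        apply mul_le_mul (pow_le_pow_left₀ (w.nonneg _) ha _)
          (pow_le_pow_left₀ (w.nonneg _) hb _) (pow_nonneg (w.nonneg _) _) (by positivity)
    _ = _ := by
        rw [← pow_add]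
        congr 1
        omega

/-- one pair of monomials -/
lemma mono_bd {x y x' y' : K} {M M' : ℝ} (hx : w x ≤ M) (hy : w y ≤ M) (hx' : w x' ≤ M')
    (hy' : w y' ≤ M') {e i j : ℕ} (he : 1 ≤ e) (hj : j ≤ i) (hi : i ≤ e) :
    w (x ^ i * y ^ (e - i) * (x' ^ j * y' ^ (e - j)) - x ^ j * y ^ (e - j) * (x' ^ i * y' ^ (e - i)))
      ≤ w (x * y' - y * x') * (M * M') ^ (e - 1) := by
  have hM : 0 ≤ M := (w.nonneg x).trans hx
  have hM' : 0 ≤ M' := (w.nonneg x').trans hx'
  rcases Nat.eq_or_lt_of_le hj with h | h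
  · rw [h, sub_self, map_zero]
    have := w.nonneg (x * y' - y * x')
    positivity
  · obtain ⟨n, rfl⟩ := Nat.exists_eq_add_of_lt h
    obtain ⟨m, rfl⟩ := Nat.exists_eq_add_of_le hi
    have e1 : j + n + 1 + m - (j + n + 1) = m := by omega
    have e2 : j + n + 1 + m - j = m + (n + 1) := by omega
    have e3 : j + n + 1 + m - 1 = j + m + n := by omega
    rw [e1, e2, e3]
    have h1 : x ^ (j + n + 1) * y ^ m * (x' ^ j * y' ^ (m + (n + 1))) -
        x ^ j * y ^ (m + (n + 1)) * (x' ^ (j + n + 1) * y' ^ m) =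
        (x ^ j * y ^ m * (x' ^ j * y' ^ m)) * ((x * y') ^ (n + 1) - (y * x') ^ (n + 1)) := by
      ring
    have h2 : w (x * y') ≤ M * M' := by
      rw [map_mul]
      exact mul_le_mul hx hy' (w.nonneg _) hM
    have h3 : w (y * x') ≤ M * M' := by
      rw [map_mul]
      exact mul_le_mul hy hx' (w.nonneg _) hM
    have h4 := pow_sub_bd hw h2 h3 (n := n + 1) (by omega)
    rw [Nat.add_sub_cancel] at h4
    rw [h1, map_mul]
    have h5 : w (x ^ j * y ^ m * (x' ^ j * y' ^ m)) ≤ (M * M') ^ (j + m) := by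
      rw [map_mul, map_mul, map_mul, map_pow, map_pow, map_pow, map_pow]
      have g1 := pow_le_pow_left₀ (w.nonneg _) hx j
      have g2 := pow_le_pow_left₀ (w.nonneg _) hy m
      have g3 := pow_le_pow_left₀ (w.nonneg _) hx' j
      have g4 := pow_le_pow_left₀ (w.nonneg _) hy' m
      calc w x ^ j * w y ^ m * (w x' ^ j * w y' ^ m) ≤ M ^ j * M ^ m * (M' ^ j * M' ^ m) := by
            have n1 := pow_nonneg (w.nonneg x) j
            have n2 := pow_nonneg (w.nonneg y) m
            have n3 := pow_nonneg (w.nonneg x') j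
            have n4 := pow_nonneg (w.nonneg y') m
            gcongr
        _ = _ := by ring
    calc w (x ^ j * y ^ m * (x' ^ j * y' ^ m)) * w ((x * y') ^ (n + 1) - (y * x') ^ (n + 1))
        ≤ (M * M') ^ (j + m) * (w (x * y' - y * x') * (M * M') ^ n) :=
          mul_le_mul h5 h4 (w.nonneg _) (by positivity)
      _ = _ := by rw [pow_add]; ring

lemma wedge_up {f g : K[X]} {e : ℕ} (he : 1 ≤ e)
    (hfi : ∀ i, w (f.coeff i) ≤ 1) (hgi : ∀ i, w (g.coeff i) ≤ 1) (u v : K × K) :
    w (form e f u * form e g v - form e g u * form e f v) ≤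
      w (u.1 * v.2 - u.2 * v.1) * (max (w u.1) (w u.2) * max (w v.1) (w v.2)) ^ (e - 1) := by
  have hM : 0 ≤ max (w u.1) (w u.2) := le_max_of_le_left (w.nonneg _)
  have hM' : 0 ≤ max (w v.1) (w v.2) := le_max_of_le_left (w.nonneg _)
  have hwn := w.nonneg (u.1 * v.2 - u.2 * v.1)
  have h1 : form e f u * form e g v - form e g u * form e f v =
      ∑ i ∈ Finset.range (e + 1), ∑ j ∈ Finset.range (e + 1), f.coeff i * g.coeff j *
        (u.1 ^ i * u.2 ^ (e - i) * (v.1 ^ j * v.2 ^ (e - j)) -
          u.1 ^ j * u.2 ^ (e - j) * (v.1 ^ i * v.2 ^ (e - i))) := by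
    unfold form
    rw [Finset.sum_mul_sum, mul_comm (∑ i ∈ Finset.range (e + 1), g.coeff i * u.1 ^ i * u.2 ^ (e - i)),
      Finset.sum_mul_sum, ← Finset.sum_sub_distrib]
    refine Finset.sum_congr rfl fun i _ => ?_
    rw [← Finset.sum_sub_distrib]
    refine Finset.sum_congr rfl fun j _ => ?_
    ring
  rw [h1]
  apply na_sum_le hw _ _ (by positivity)
  intro i hi
  apply na_sum_le hw _ _ (by positivity)
  intro j hj
  rw [Finset.mem_range] at hi hj
  rw [map_mul, map_mul]
  have h2 : w (f.coeff i) * w (g.coeff j) ≤ 1 := mul_le_one₀ (hfi i) (w.nonneg _) (hgi j)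
  refine (mul_le_of_le_one_left (w.nonneg _) h2).trans ?_
  rcases le_total j i with h | h
  · exact mono_bd hw (le_max_left _ _) (le_max_right _ _) (le_max_left _ _) (le_max_right _ _) he h
      (by omega)
  · have h3 := mono_bd hw (x := u.1) (y := u.2) (x' := v.1) (y' := v.2) (le_max_left _ _)
      (le_max_right _ _) (le_max_left _ _) (le_max_right _ _) he h (by omega : j ≤ e)
    rw [← AbsoluteValue.map_neg, neg_sub] at h3
    exact h3

end NA

end Run7.h197.X
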