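import Pool.Agent.Run7.h197.X.Dom

/-!
**Packing** in finite dimensional normed spaces, and the logarithmic embedding.
-/

set_option autoImplicit false

namespace Run7.h197.X

open Finset NumberField Height IsDedekindDomain
open Pool.Agent.H691R3 Run7.h197.U
open MeasureTheory Metric Module
open scoped ENNReal

section pack
variable {E : Type} [NormedAddCommGroup E] [NormedSpace ℝ E] [FiniteDimensional ℝ E]

open scoped Function in
/-- a `1`-separated set in the ball of radius `R` -/
theorem packing (s : Finset E) {R : ℝ} (hR : 0 ≤ R) (hs : ∀ c ∈ s, ‖c‖ ≤ R)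
    (h : ∀ c ∈ s, ∀ d ∈ s, c ≠ d → 1 ≤ ‖c - d‖) : (s.card : ℝ) ≤ (2 * R + 1) ^ finrank ℝ E := by
  borelize E
  let μ : Measure E := Measure.addHaar
  let δ : ℝ := (1 : ℝ) / 2
  let ρ : ℝ := R + (1 : ℝ) / 2
  have ρpos : 0 < ρ := by positivity
  set A := ⋃ c ∈ s, ball (c : E) δ with hA
  have D : Set.Pairwise (s : Set E) (Disjoint on fun c => ball (c : E) δ) := by
    rintro c hc d hd hcd
    apply ball_disjoint_ball
    rw [dist_eq_norm]
    have := h c hc d hd hcd
    show (1 : ℝ) / 2 + 1 / 2 ≤ _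
    linarith
  have A_subset : A ⊆ ball (0 : E) ρ := by
    refine Set.iUnion₂_subset fun x hx => ?_
    apply ball_subset_ball'
    rw [dist_zero_right]
    have := hs x hx
    show (1 : ℝ) / 2 + _ ≤ R + 1 / 2
    linarith
  have I :
    (s.card : ℝ≥0∞) * ENNReal.ofReal (δ ^ finrank ℝ E) * μ (ball 0 1) ≤
      ENNReal.ofReal (ρ ^ finrank ℝ E) * μ (ball 0 1) :=
    calc
      (s.card : ℝ≥0∞) * ENNReal.ofReal (δ ^ finrank ℝ E) * μ (ball 0 1) = μ A := by
        rw [hA, measure_biUnion_finset D fun c _ => measurableSet_ball]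
        have I : 0 < δ := by norm_num [δ]
        simp only [μ.addHaar_ball_of_pos _ I]
        simp only [Finset.sum_const, nsmul_eq_mul, mul_assoc]
      _ ≤ μ (ball (0 : E) ρ) := measure_mono A_subset
      _ = ENNReal.ofReal (ρ ^ finrank ℝ E) * μ (ball 0 1) := by
        simp only [μ.addHaar_ball_of_pos _ ρpos]
  have J : (s.card : ℝ≥0∞) * ENNReal.ofReal (δ ^ finrank ℝ E) ≤ ENNReal.ofReal (ρ ^ finrank ℝ E) :=
    (ENNReal.mul_le_mul_iff_left (measure_ball_pos _ _ zero_lt_one).ne' measure_ball_lt_top.ne).1 I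
  have K := ENNReal.toReal_le_of_le_ofReal (pow_nonneg ρpos.le _) J
  have hδ : (0 : ℝ) ≤ δ ^ finrank ℝ E := by positivity
  rw [ENNReal.toReal_mul, ENNReal.toReal_natCast, ENNReal.toReal_ofReal hδ] at K
  have h1 : (2 * R + 1) ^ finrank ℝ E * δ ^ finrank ℝ E = ρ ^ finrank ℝ E := by
    rw [← mul_pow]
    congr 1
    show (2 * R + 1) * (1 / 2) = R + 1 / 2
    ring
  rw [← h1] at K
  exact le_of_mul_le_mul_right K (by positivity)

/-- the same for subsets of a subspace of small dimension -/
theorem packing' {F : Type} [NormedAddCommGroup F] [NormedSpace ℝ F] [FiniteDimensional ℝ F]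
    (s : Finset F) {R : ℝ} (hR : 0 ≤ R) (hs : ∀ c ∈ s, ‖c‖ ≤ R)
    (h : ∀ c ∈ s, ∀ d ∈ s, c ≠ d → 1 ≤ ‖c - d‖) {k : ℕ}
    (hk : finrank ℝ (Submodule.span ℝ (s : Set F)) ≤ k) : (s.card : ℝ) ≤ (2 * R + 1) ^ k := by
  classical
  let W := Submodule.span ℝ (s : Set F)
  let t : Finset W := s.attach.image fun x => (⟨x.1, Submodule.subset_span x.2⟩ : W)
  have hcard : t.card = s.card := by
    rw [Finset.card_image_of_injective, Finset.card_attach]
    intro x y hxy
    apply Subtype.ext
    exact congrArg (fun z : W => (z : F)) hxy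
  have h1 := packing t hR (by
    intro c hc
    obtain ⟨x, _, rfl⟩ := Finset.mem_image.1 hc
    exact hs x.1 x.2) (by
    intro c hc d hd hcd
    obtain ⟨x, _, rfl⟩ := Finset.mem_image.1 hc
    obtain ⟨y, _, rfl⟩ := Finset.mem_image.1 hd
    have hne : x.1 ≠ y.1 := by
      intro h
      apply hcd
      apply Subtype.ext
      exact h
    exact h x.1 x.2 y.1 y.2 hne)
  rw [hcard] at h1
  exact h1.trans (pow_le_pow_right₀ (by linarith) hk)

/-- a spanning set contains enough linearly independent vectors -/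
theorem exists_indep {F : Type} [NormedAddCommGroup F] [NormedSpace ℝ F] [FiniteDimensional ℝ F]
    (s : Finset F) {r : ℕ} (hr : r ≤ finrank ℝ (Submodule.span ℝ (s : Set F))) :
    ∃ f : Fin r → F, (∀ i, f i ∈ s) ∧ LinearIndependent ℝ f := by
  classical
  obtain ⟨b, hbs, hspan, hb⟩ := exists_linearIndependent ℝ (s : Set F)
  have hbf : b.Finite := s.finite_toSet.subset hbs
  obtain ⟨t, rfl⟩ := hbf.exists_finset_coe
  have h1 : finrank ℝ (Submodule.span ℝ (s : Set F)) = t.card := by
    rw [← hspan]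
    have := finrank_span_finset_eq_card hb
    exact this
  rw [h1] at hr
  obtain ⟨f, hf⟩ := Function.Embedding.exists_of_card_le_finset
    (show Fintype.card (Fin r) ≤ t.card by rw [Fintype.card_fin]; exact hr)
  refine ⟨f, fun i => hbs (hf ⟨i, rfl⟩), ?_⟩
  have h2 : LinearIndependent ℝ (fun x : (t : Set F) => (x : F)) := hb
  exact h2.comp (fun i => (⟨f i, hf ⟨i, rfl⟩⟩ : (t : Set F))) (fun i j hij => by
    apply f.injective
    exact congrArg Subtype.val hij)

end pack

end Run7.h197.X
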