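import Pool.Agent.Run7.h197.X.Box
import Pool.Agent.Run7.h197.X.Pack

/-!
**The logarithmic embedding** and the number of elements dominated by one place.
-/

set_option autoImplicit false

namespace Run7.h197.X

open Finset NumberField Height IsDedekindDomain
open Pool.Agent.H691R3 Run7.h197.U
open Module

variable {K : Type} [Field K] [NumberField K]

/-- the index set of the places -/
abbrev Ix (T : Finset (HeightOneSpectrum (𝓞 K))) : Type := InfinitePlace K ⊕ T

/-- the logarithmic space -/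
abbrev LS (T : Finset (HeightOneSpectrum (𝓞 K))) : Type := PiLp 1 (fun _ : Ix T => ℝ)

/-- the logarithms of the absolute values -/
noncomputable def lc (T : Finset (HeightOneSpectrum (𝓞 K))) (x : K) : Ix T → ℝ
  | Sum.inl w => w.mult * Real.log (w x)
  | Sum.inr v => Real.log (fv v.1 x)

/-- the logarithmic embedding -/
noncomputable def lam (T : Finset (HeightOneSpectrum (𝓞 K))) (x : K) : LS T := WithLp.toLp 1 (lc T x)

lemma lam_apply (T : Finset (HeightOneSpectrum (𝓞 K))) (x : K) (i : Ix T) : lam T x i = lc T x i := rfl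

lemma lc_mul (T : Finset (HeightOneSpectrum (𝓞 K))) {x y : K} (hx : x ≠ 0) (hy : y ≠ 0) (i : Ix T) :
    lc T (x * y) i = lc T x i + lc T y i := by
  rcases i with w | v
  · show (w.mult : ℝ) * Real.log (w (x * y)) = w.mult * Real.log (w x) + w.mult * Real.log (w y)
    rw [map_mul, Real.log_mul ((map_ne_zero w).2 hx) ((map_ne_zero w).2 hy)]
    ring
  · show Real.log (fv v.1 (x * y)) = Real.log (fv v.1 x) + Real.log (fv v.1 y)
    rw [map_mul, Real.log_mul ((fv v.1).pos hx).ne' ((fv v.1).pos hy).ne']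

lemma lam_mul (T : Finset (HeightOneSpectrum (𝓞 K))) {x y : K} (hx : x ≠ 0) (hy : y ≠ 0) :
    lam T (x * y) = lam T x + lam T y := by
  ext i
  rw [PiLp.add_apply, lam_apply, lam_apply, lam_apply]
  exact lc_mul T hx hy i

lemma lam_one (T : Finset (HeightOneSpectrum (𝓞 K))) : lam T (1 : K) = 0 := by
  ext i
  rw [lam_apply, PiLp.zero_apply]
  rcases i with w | v
  · show (w.mult : ℝ) * Real.log (w 1) = 0
    rw [map_one, Real.log_one, mul_zero]
  · show Real.log (fv v.1 1) = 0
    rw [map_one, Real.log_one]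

lemma lam_zpow (T : Finset (HeightOneSpectrum (𝓞 K))) (x : K) (n : ℤ) :
    lam T (x ^ n) = (n : ℝ) • lam T x := by
  ext i
  rw [PiLp.smul_apply, lam_apply, lam_apply, smul_eq_mul]
  rcases i with w | v
  · show (w.mult : ℝ) * Real.log (w (x ^ n)) = n * (w.mult * Real.log (w x))
    rw [map_zpow₀, Real.log_zpow]
    ring
  · show Real.log (fv v.1 (x ^ n)) = n * Real.log (fv v.1 x)
    rw [map_zpow₀, Real.log_zpow]

lemma lam_div (T : Finset (HeightOneSpectrum (𝓞 K))) {x y : K} (hx : x ≠ 0) (hy : y ≠ 0) :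
    lam T (x / y) = lam T x - lam T y := by
  have h := lam_mul T (div_ne_zero hx hy) hy
  rw [div_mul_cancel₀ _ hy] at h
  rw [h]
  abel

lemma lam_prod (T : Finset (HeightOneSpectrum (𝓞 K))) {ι : Type} (I : Finset ι) (u : ι → K)
    (hu : ∀ i, u i ≠ 0) (a : ι → ℤ) :
    lam T (∏ i ∈ I, u i ^ a i) = ∑ i ∈ I, (a i : ℝ) • lam T (u i) := by
  classical
  induction I using Finset.induction_on with
  | empty => rw [Finset.prod_empty, Finset.sum_empty, lam_one]
  | insert i I hi ih =>
    rw [Finset.prod_insert hi, Finset.sum_insert hi, lam_mul T (zpow_ne_zero _ (hu i))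
      (Finset.prod_ne_zero_iff.2 fun j _ => zpow_ne_zero _ (hu j)), lam_zpow, ih]

lemma abs_log_eq {a : ℝ} (ha : 0 < a) : |Real.log a| = 2 * Real.log (max a 1) - Real.log a := by
  rcases le_total a 1 with h | h
  · rw [max_eq_right h, Real.log_one, abs_of_nonpos (Real.log_nonpos ha.le h)]
    ring
  · rw [max_eq_left h, abs_of_nonneg (Real.log_nonneg h)]
    ring

/-- the norm is twice the height -/
theorem lam_norm (T : Finset (HeightOneSpectrum (𝓞 K))) {x : K} (hx : x ≠ 0)
    (hT : ∀ v, fv v x ≠ 1 → v ∈ T) : ‖lam T x‖ = 2 * logHeight₁ x := by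
  classical
  rw [PiLp.norm_eq_of_L1, Fintype.sum_sum_type]
  have h1 : ∑ w : InfinitePlace K, ‖lam T x (Sum.inl w)‖ =
      ∑ w : InfinitePlace K, (2 * (w.mult * Real.log (max (w x) 1)) - w.mult * Real.log (w x)) := by
    refine Finset.sum_congr rfl fun w _ => ?_
    have hw : 0 < w x := InfinitePlace.pos_iff.2 hx
    rw [lam_apply, Real.norm_eq_abs]
    show |(w.mult : ℝ) * Real.log (w x)| = _
    rw [abs_mul, abs_of_nonneg (Nat.cast_nonneg _), abs_log_eq hw]
    ring
  have h2 : ∑ v : T, ‖lam T x (Sum.inr v)‖ =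
      ∑ v ∈ T, (2 * Real.log (max (fv v x) 1) - Real.log (fv v x)) := by
    rw [← Finset.sum_coe_sort T (fun v => 2 * Real.log (max (fv v x) 1) - Real.log (fv v x))]
    refine Finset.sum_congr rfl fun v _ => ?_
    rw [lam_apply, Real.norm_eq_abs]
    exact abs_log_eq ((fv v.1).pos hx)
  rw [h1, h2, Finset.sum_sub_distrib, Finset.sum_sub_distrib, ← Finset.mul_sum, ← Finset.mul_sum]
  have h3 : logHeight₁ x = ∑ w : InfinitePlace K, (w.mult : ℝ) * Real.log (max (w x) 1) +
      ∑ v ∈ T, Real.log (max (fv v x) 1) := by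
    have hp1 : ∀ w : InfinitePlace K, max (w x) 1 ^ w.mult ≠ 0 := fun w =>
      (pow_pos (lt_of_lt_of_le one_pos (le_max_right _ _)) _).ne'
    have hp2 : ∀ v : HeightOneSpectrum (𝓞 K), max (fv v x) 1 ≠ 0 := fun v =>
      (lt_of_lt_of_le one_pos (le_max_right _ _)).ne'
    rw [logHeight₁_eq_log_mulHeight₁, height_finset T hT, Real.log_mul
      (Finset.prod_ne_zero_iff.2 fun w _ => hp1 w) (Finset.prod_ne_zero_iff.2 fun v _ => hp2 v),
      Real.log_prod (fun w _ => hp1 w), Real.log_prod (fun v _ => hp2 v)]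
    congr 1
    refine Finset.sum_congr rfl fun w _ => ?_
    rw [Real.log_pow]
  have h4 : ∑ w : InfinitePlace K, (w.mult : ℝ) * Real.log (w x) + ∑ v ∈ T, Real.log (fv v x) = 0 := by
    have hp1 : ∀ w : InfinitePlace K, w x ^ w.mult ≠ 0 := fun w =>
      (pow_pos (InfinitePlace.pos_iff.2 hx) _).ne'
    have hp2 : ∀ v : HeightOneSpectrum (𝓞 K), fv v x ≠ 0 := fun v => ((fv v).pos hx).ne'
    have h5 := congrArg Real.log (prod_finset hx T hT)
    rw [Real.log_one, Real.log_mul (Finset.prod_ne_zero_iff.2 fun w _ => hp1 w)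
      (Finset.prod_ne_zero_iff.2 fun v _ => hp2 v), Real.log_prod (fun w _ => hp1 w),
      Real.log_prod (fun v _ => hp2 v)] at h5
    rw [← h5]
    congr 1
    refine Finset.sum_congr rfl fun w _ => ?_
    rw [Real.log_pow]
  rw [h3]
  linarith

/-- elements dominated by one place -/
theorem star {D N d s g r B : ℕ} (hK : Module.finrank ℚ K ≤ D) (hND : N * D ≤ d) (hd : 1 ≤ d)
    (hdg : d ≤ 2 ^ g) (hs1 : 1 ≤ s) (hB : d < (B + 1) ^ (r + 1))
    (hsmall : (N + 1) * (2 * s * (D * (g + 1) + 2 ^ D * cD D)) < d)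
    (hbox : 4 * s * ((r + 1) * B) + 4 * s * (D * N * (g + 1)) < d)
    (hgap : ∀ x : K, NT x → 2 < mulHeight₁ x ^ N) {v : HeightOneSpectrum (𝓞 K)} {Z : ℝ}
    (V : Finset K) (hV : ∀ u ∈ V, NT u ∧ Dm v s d u ∧ mulHeight₁ u ≤ Z ∧ Z ≤ mulHeight₁ u ^ 2)
    (hVV : ∀ u ∈ V, ∀ u' ∈ V, u ≠ u' → NT (u / u')) : V.card ≤ (16 * s + 1) ^ r := by
  classical
  rcases V.eq_empty_or_nonempty with h0 | ⟨w, hw⟩
  · rw [h0, Finset.card_empty]
    exact Nat.zero_le _
  have hV0 : ∀ u ∈ V, u ≠ 0 := fun u hu => (hV u hu).1.1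
  have hZ1 : 1 < Z := lt_of_lt_of_le (NT.one_lt (hgap w (hV w hw).1)) (hV w hw).2.2.1
  have hlZ : 0 < Real.log Z := Real.log_pos hZ1
  have hs0 : (1 : ℝ) ≤ s := by exact_mod_cast hs1
  -- the places
  obtain ⟨T, hT⟩ : ∃ T : Finset (HeightOneSpectrum (𝓞 K)), ∀ u ∈ V, ∀ v, fv v u ≠ 1 → v ∈ T := by
    refine ⟨V.attach.biUnion fun x => (fv_support_finite (hV0 x.1 x.2)).toFinset, ?_⟩
    intro u hu v hv
    rw [Finset.mem_biUnion]
    refine ⟨⟨u, hu⟩, Finset.mem_attach _ _, ?_⟩
    rw [Set.Finite.mem_toFinset]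
    exact hv
  have hlow : ∀ u ∈ V, Real.log Z ≤ 2 * logHeight₁ u := by
    intro u hu
    rw [logHeight₁_eq_log_mulHeight₁]
    have h1 := (hV u hu).2.2.2
    have h2 := Real.log_le_log (by linarith) h1
    rw [Real.log_pow] at h2
    push_cast at h2
    exact h2
  have hup : ∀ u ∈ V, logHeight₁ u ≤ Real.log Z := by
    intro u hu
    rw [logHeight₁_eq_log_mulHeight₁]
    exact Real.log_le_log (mulHeight₁_pos _) (hV u hu).2.2.1
  obtain ⟨κ, hκ⟩ : ∃ κ : ℝ, κ = 4 * s / Real.log Z := ⟨_, rfl⟩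
  have hκ0 : 0 < κ := by rw [hκ]; positivity
  have hκZ : κ * Real.log Z = 4 * s := by rw [hκ]; field_simp
  -- separation
  have hsepn : ∀ u ∈ V, ∀ u' ∈ V, u ≠ u' → 1 ≤ ‖κ • lam T u - κ • lam T u'‖ := by
    intro u hu u' hu' hne
    have hr := hVV u hu u' hu' hne
    have hsep := sep hK hND hd hr (hV0 u' hu') (hgap _ hr) v (hV u hu).2.1 (hV u' hu').2.1
    have hl : ∀ z ∈ V, mulHeight₁ z ≤ mulHeight₁ (u / u') ^ (4 * s) →
        Real.log Z ≤ 8 * s * logHeight₁ (u / u') := by
      intro z hzV hz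
      have h1 := hlow z hzV
      rw [logHeight₁_eq_log_mulHeight₁] at h1
      rw [logHeight₁_eq_log_mulHeight₁]
      have h2 := Real.log_le_log (mulHeight₁_pos _) hz
      rw [Real.log_pow] at h2
      push_cast at h2
      linarith
    have hl' : Real.log Z ≤ 8 * s * logHeight₁ (u / u') := by
      rcases hsep with h | h
      · exact hl u hu h
      · exact hl u' hu' h
    rw [← smul_sub, norm_smul, ← lam_div T (hV0 u hu) (hV0 u' hu'), lam_norm T
      (div_ne_zero (hV0 u hu) (hV0 u' hu')), Real.norm_eq_abs, abs_of_pos hκ0, hκ]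
    · rw [div_mul_eq_mul_div, le_div_iff₀ hlZ, one_mul]
      linarith
    · intro v' hv'
      by_contra hcon
      apply hv'
      have h1 : fv v' u = 1 := by
        by_contra h
        exact hcon (hT u hu v' h)
      have h2 : fv v' u' = 1 := by
        by_contra h
        exact hcon (hT u' hu' v' h)
      rw [map_div₀, h1, h2, div_one]
  have hinj : Set.InjOn (fun u : K => κ • lam T u) (V : Set K) := by
    intro u hu u' hu' heq
    by_contra hne
    have h1 := hsepn u hu u' hu' hne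
    simp only at heq
    rw [heq, sub_self, norm_zero] at h1
    linarith
  have hcard : (V.image fun u : K => κ • lam T u).card = V.card := Finset.card_image_of_injOn hinj
  have hrank : finrank ℝ (Submodule.span ℝ
      ((V.image fun u : K => κ • lam T u : Finset (LS T)) : Set (LS T))) ≤ r := by
    by_contra hcon
    push Not at hcon
    obtain ⟨f, hf, hli⟩ := exists_indep (V.image fun u : K => κ • lam T u) (r := r + 1) hcon
    have hch : ∀ i, ∃ u ∈ V, κ • lam T u = f i := fun i => Finset.mem_image.1 (hf i)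
    choose u huV huf using hch
    obtain ⟨a, ha0, ha⟩ := box hK hd hdg (by omega) hB hsmall hbox u (fun i => (hV _ (huV i)).1)
      (fun i => hgap _ (hV _ (huV i)).1) (fun i => (hV _ (huV i)).2.1) (Z := Z)
      (fun i => (hV _ (huV i)).2.2.1) (fun i => (hV _ (huV i)).2.2.2)
    have h1 : ∑ i, (a i : ℝ) • f i = 0 := by
      have h2 := lam_prod T Finset.univ u (fun i => hV0 _ (huV i)) a
      rw [ha, lam_one] at h2
      calc ∑ i, (a i : ℝ) • f i = ∑ i, κ • ((a i : ℝ) • lam T (u i)) := by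
            refine Finset.sum_congr rfl fun i _ => ?_
            rw [← huf i, smul_comm]
        _ = κ • ∑ i, (a i : ℝ) • lam T (u i) := by rw [Finset.smul_sum]
        _ = 0 := by rw [← h2, smul_zero]
    have h3 := Fintype.linearIndependent_iff.1 hli (fun i => (a i : ℝ)) h1
    apply ha0
    funext i
    have := h3 i
    exact_mod_cast this
  have hpack := packing' (V.image fun u : K => κ • lam T u) (R := 8 * s) (by positivity) (by
    intro c hc
    obtain ⟨u, hu, rfl⟩ := Finset.mem_image.1 hc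
    rw [norm_smul, lam_norm T (hV0 u hu) (hT u hu), Real.norm_eq_abs, abs_of_pos hκ0]
    have := hup u hu
    have h1 := zero_le_logHeight₁ u
    calc κ * (2 * logHeight₁ u) ≤ κ * (2 * Real.log Z) := by
          apply mul_le_mul_of_nonneg_left _ hκ0.le
          linarith
      _ = 2 * (κ * Real.log Z) := by ring
      _ = 8 * s := by rw [hκZ]; ring) (by
    intro c hc c' hc' hne
    obtain ⟨u, hu, rfl⟩ := Finset.mem_image.1 hc
    obtain ⟨u', hu', rfl⟩ := Finset.mem_image.1 hc'
    apply hsepn u hu u' hu'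
    rintro rfl
    exact hne rfl) hrank
  rw [hcard] at hpack
  have h5 : (V.card : ℝ) ≤ ((16 * s + 1) ^ r : ℕ) := by
    push_cast
    refine hpack.trans (le_of_eq ?_)
    ring
  exact_mod_cast h5

end Run7.h197.X
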