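import Pool.Agent.Run7.h197.X.Star
import Pool.Agent.Run7.h197.X.Dyn
import Pool.Agent.Run7.h197.U.Count

/-!
**The main theorem**: periodic points of `φ (z ^ d)`.
-/

set_option autoImplicit false

namespace Run7.h197.X

open Finset NumberField Height IsDedekindDomain
open Pool.Agent.H691R3 Run7.h197.U
open Pool.Agent.Y913.Bk (PolyB)

/-- counting modulo roots of unity -/
theorem classes {K : Type} [Field K] (P : Set K) {M B : ℕ} (hB : (mu K).encard ≤ B)
    (h : ∀ V : Finset K, (∀ x ∈ V, x ∈ P ∧ x ≠ 0) → (∀ x ∈ V, ∀ y ∈ V, x ≠ y → NT (x / y)) →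
      V.card ≤ M) : P.encard ≤ (M * B + 1 : ℕ) := by
  classical
  have hmf : (mu K).Finite := Set.finite_of_encard_le_coe hB
  obtain ⟨μ, hμ⟩ : ∃ μ : Finset K, (μ : Set K) = mu K := ⟨hmf.toFinset, hmf.coe_toFinset⟩
  have hμB : μ.card ≤ B := by
    rw [← hμ, Set.encard_coe_eq_coe_finsetCard] at hB
    exact_mod_cast hB
  -- a maximal set of classes
  let G : ℕ → Prop := fun n => ∃ V : Finset K, (∀ x ∈ V, x ∈ P ∧ x ≠ 0) ∧
    (∀ x ∈ V, ∀ y ∈ V, x ≠ y → NT (x / y)) ∧ V.card = n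
  have hG0 : G 0 := ⟨∅, by simp, by simp, rfl⟩
  obtain ⟨n, hn⟩ : ∃ n, n = Nat.findGreatest G M := ⟨_, rfl⟩
  have hGn : G n := by
    rw [hn]
    exact Nat.findGreatest_spec (Nat.zero_le M) hG0
  obtain ⟨V, hV1, hV2, hVn⟩ := hGn
  have hmax : ∀ m, G m → m ≤ n := by
    intro m hm
    rw [hn]
    apply Nat.le_findGreatest _ hm
    obtain ⟨W, hW1, hW2, rfl⟩ := hm
    exact h W hW1 hW2
  have hsub : P ⊆ ((insert 0 ((V ×ˢ μ).image fun p => p.2 * p.1) : Finset K) : Set K) := by
    intro x hx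
    rw [Finset.mem_coe, Finset.mem_insert, Finset.mem_image]
    by_cases hx0 : x = 0
    · exact Or.inl hx0
    right
    have hcl : ∃ y ∈ V, x / y ∈ mu K := by
      by_contra hcon
      push Not at hcon
      have hxV : x ∉ V := by
        intro hxV
        apply hcon x hxV
        rw [div_self hx0]
        exact ⟨1, le_rfl, one_pow _⟩
      have hNT : ∀ y ∈ V, NT (x / y) := by
        intro y hy
        refine ⟨div_ne_zero hx0 (hV1 y hy).2, fun n hn h1 => hcon y hy ⟨n, hn, h1⟩⟩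
      have hG' : G (n + 1) := by
        refine ⟨insert x V, ?_, ?_, ?_⟩
        · intro y hy
          rcases Finset.mem_insert.1 hy with rfl | hy
          · exact ⟨hx, hx0⟩
          · exact hV1 y hy
        · intro y hy z hz hyz
          rcases Finset.mem_insert.1 hy with h1 | h1
          · rcases Finset.mem_insert.1 hz with h2 | h2
            · exact absurd (h1.trans h2.symm) hyz
            · rw [h1]
              exact hNT z h2
          · rcases Finset.mem_insert.1 hz with h2 | h2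
            · have := (hNT y h1).inv
              rwa [inv_div, ← h2] at this
            · exact hV2 y h1 z h2 hyz
        · rw [Finset.card_insert_of_notMem hxV, hVn]
      have := hmax _ hG'
      omega
    obtain ⟨y, hy, hxy⟩ := hcl
    refine ⟨(y, x / y), ?_, ?_⟩
    · rw [Finset.mem_product]
      refine ⟨hy, ?_⟩
      have h2 : x / y ∈ (μ : Set K) := by
        rw [hμ]
        exact hxy
      exact h2
    · simp only
      exact div_mul_cancel₀ _ (hV1 y hy).2
  have hcard : (insert 0 ((V ×ˢ μ).image fun p => p.2 * p.1) : Finset K).card ≤ M * B + 1 := by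
    calc _ ≤ ((V ×ˢ μ).image fun p => p.2 * p.1).card + 1 := Finset.card_insert_le _ _
      _ ≤ (V ×ˢ μ).card + 1 := Nat.add_le_add_right Finset.card_image_le _
      _ = V.card * μ.card + 1 := by rw [Finset.card_product]
      _ ≤ M * B + 1 := Nat.add_le_add_right (Nat.mul_le_mul (h V hV1 hV2) hμB) _
  calc P.encard ≤ _ := Set.encard_le_encard hsub
    _ = ((insert 0 ((V ×ˢ μ).image fun p => p.2 * p.1) : Finset K).card : ℕ∞) :=
        Set.encard_coe_eq_coe_finsetCard _
    _ ≤ _ := by exact_mod_cast hcard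

/-- integral parts of roots -/
lemma exists_root {n d : ℕ} (hn : 1 ≤ n) : ∃ B : ℕ, B ^ n ≤ d ∧ d < (B + 1) ^ n := by
  classical
  have hex : ∃ m : ℕ, d < (m + 1) ^ n :=
    ⟨d, lt_of_lt_of_le (Nat.lt_succ_self d) (Nat.le_self_pow (by omega) _)⟩
  obtain ⟨B, hB⟩ : ∃ B, B = Nat.find hex := ⟨_, rfl⟩
  refine ⟨B, ?_, ?_⟩
  · rcases Nat.eq_zero_or_pos B with h0 | h0
    · rw [h0, zero_pow (by omega)]
      exact Nat.zero_le _
    · have h1 := Nat.find_min hex (m := B - 1) (by omega)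
      rw [Nat.sub_add_cancel h0] at h1
      exact not_lt.1 h1
  · rw [hB]
    exact Nat.find_spec hex

/-- **the main theorem** -/
theorem main (D : ℕ) : ∃ M : ℕ, ∀ n : ℕ, 1 ≤ n → ∃ d₀ : ℕ, ∀ (K : Type) [Field K] [NumberField K],
    Module.finrank ℚ K ≤ D → ∀ (S : Finset (HeightOneSpectrum (𝓞 K))) (d : ℕ), d₀ ≤ d →
    (8 * n * S.card) ^ n ≤ d ^ (n - 1) → ∀ (e : ℕ) (p q : Polynomial K), 1 ≤ e →
    p.natDegree ≤ e → q.natDegree ≤ e → (∀ v ∉ S, GoodReduction (fv v) e p q) →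
    (Periodic d e p q).encard ≤
      ((2 * (S.card * (16 * S.card + 1) ^ (n - 1)) + 1) * M + 1 : ℕ) := by
  classical
  obtain ⟨N, hN1, hgap⟩ := gap D
  obtain ⟨d₁, hS1⟩ := S1 D
  obtain ⟨M, hM⟩ := mu_bound D
  refine ⟨M, fun n hn => ?_⟩
  obtain ⟨g1, hg1⟩ := ((PolyB.const 2).mul (((PolyB.const (N + 1)).mul
    (((PolyB.const D).mul (PolyB.id.add (PolyB.const 1))).add
      (PolyB.const (2 ^ D * cD D)))).pow n)) |>.le_two_pow
  refine ⟨d₁ + N * D + 2 ^ (g1 + 1), ?_⟩
  intro K _ _ hK S d hd hSd e p q he hp hq hgood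
  obtain ⟨g, hg⟩ : ∃ g, g = Nat.size d := ⟨_, rfl⟩
  have hdlt : d < 2 ^ g := by rw [hg]; exact Nat.lt_size_self d
  have h2d : 2 ^ (g1 + 1) ≤ d := le_trans (Nat.le_add_left _ _) hd
  have hNDd : N * D ≤ d := le_trans (le_trans (Nat.le_add_left _ _) (Nat.le_add_right _ _)) hd
  have hd₁ : d₁ ≤ d := le_trans (le_trans (Nat.le_add_right _ _) (Nat.le_add_right _ _)) hd
  have hd1 : 1 ≤ d := le_trans (Nat.one_le_two_pow) h2d
  have hgg : g1 + 1 < g := by
    have h1 : 2 ^ (g1 + 1) < 2 ^ g := lt_of_le_of_lt h2d hdlt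
    exact (Nat.pow_lt_pow_iff_right (by norm_num)).1 h1
  have hgd' : 2 ^ g ≤ 2 * d := by
    have h2 : 2 ^ (g - 1) ≤ d := by
      apply Nat.lt_size.1
      omega
    calc 2 ^ g = 2 ^ (g - 1 + 1) := by rw [Nat.sub_add_cancel (by omega)]
      _ = 2 ^ (g - 1) * 2 := pow_succ _ _
      _ ≤ 2 * d := by omega
  have hpg := hg1 g (by omega)
  obtain ⟨s, hs⟩ : ∃ s, s = S.card := ⟨_, rfl⟩
  obtain ⟨R, hR1, hR2⟩ := exists_root (n := n) (d := d) hn
  have hRpos : 1 ≤ R := by
    by_contra h0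
    have h1 : R = 0 := by omega
    rw [h1, Nat.zero_add, one_pow] at hR2
    omega
  obtain ⟨r, rfl⟩ : ∃ r, n = r + 1 := ⟨n - 1, by omega⟩
  rw [Nat.add_sub_cancel, ← hs] at hSd
  rw [Nat.add_sub_cancel, ← hs]
  have hsR : 8 * (r + 1) * s * R ≤ d := by
    have h1 : (8 * (r + 1) * s * R) ^ (r + 1) ≤ d ^ (r + 1) := by
      rw [mul_pow, pow_succ d r]
      exact Nat.mul_le_mul hSd hR1
    exact (Nat.pow_le_pow_iff_left (by omega)).1 h1
  obtain ⟨T, hT⟩ : ∃ T, T = (N + 1) * (D * (g + 1) + 2 ^ D * cD D) := ⟨_, rfl⟩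
  have hTR : T ≤ R := by
    have h1 : T ^ (r + 1) ≤ d := by
      have : 2 * ((N + 1) * (D * (g + 1) + 2 ^ D * cD D)) ^ (r + 1) ≤ 2 * d := hpg.trans hgd'
      rw [hT]
      omega
    by_contra hcon
    push Not at hcon
    have h2 : (R + 1) ^ (r + 1) ≤ T ^ (r + 1) := Nat.pow_le_pow_left hcon _
    omega
  -- the case of a bad place
  have hr1 : 1 ≤ s → 1 ≤ r := by
    intro h1
    by_contra h2
    have h3 : r = 0 := by omega
    subst h3
    rw [pow_zero, pow_one] at hSd
    omega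
  have hsmall : (N + 1) * (2 * S.card * (D * (g + 1) + 2 ^ D * cD D)) < d := by
    rw [← hs]
    have h1 : (N + 1) * (2 * s * (D * (g + 1) + 2 ^ D * cD D)) = 2 * s * T := by rw [hT]; ring
    rw [h1]
    rcases Nat.eq_zero_or_pos s with h0 | h0
    · rw [h0]
      omega
    · have h2 : 0 < s * R := Nat.mul_pos h0 hRpos
      calc 2 * s * T ≤ 2 * s * R := Nat.mul_le_mul_left _ hTR
        _ = 2 * (s * R) := by ring
        _ < 8 * (r + 1) * (s * R) := by
            apply Nat.mul_lt_mul_of_pos_right (by omega) h2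
        _ = 8 * (r + 1) * s * R := by ring
        _ ≤ d := hsR
  have hbox : 4 * S.card * ((r + 1) * R) + 4 * S.card * (D * N * (g + 1)) < d := by
    rw [← hs]
    have h1 : D * N * (g + 1) ≤ R := by
      refine le_trans ?_ hTR
      rw [hT]
      calc D * N * (g + 1) = N * (D * (g + 1)) := by ring
        _ ≤ (N + 1) * (D * (g + 1) + 2 ^ D * cD D) :=
            Nat.mul_le_mul (by omega) (Nat.le_add_right _ _)
    rcases Nat.eq_zero_or_pos s with h0 | h0
    · rw [h0]
      omega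
    · have h2 : 0 < s * R := Nat.mul_pos h0 hRpos
      have h3 := hr1 h0
      calc 4 * s * ((r + 1) * R) + 4 * s * (D * N * (g + 1))
          ≤ 4 * s * ((r + 1) * R) + 4 * s * R :=
            Nat.add_le_add_left (Nat.mul_le_mul_left _ h1) _
        _ = (4 * (r + 1) + 4) * (s * R) := by ring
        _ < 8 * (r + 1) * (s * R) := by
            apply Nat.mul_lt_mul_of_pos_right (by omega) h2
        _ = 8 * (r + 1) * s * R := by ring
        _ ≤ d := hsR
  have hgap' : ∀ x : K, NT x → 2 < mulHeight₁ x ^ N := fun x hx => hgap K hK x hx.2 hx.1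
  have hcount := classes (Periodic d e p q) (M := 2 * (s * (16 * s + 1) ^ r) + 1) (hM K hK) (by
    intro V hV hVV
    rw [hs]
    refine count_main hK (N := N) (g := g) hNDd hd1 hdlt.le hR2 S hsmall hbox hgap' V
      (fun x hx => (hV x hx).2) ?_
    intro x hx y hy hxy
    have hNT := hVV x hx y hy hxy
    refine ⟨hNT, ?_⟩
    apply exists_dm hd1 (hgap' _ hNT)
    apply hS1 K hK S d hd₁ (x / y) hNT.1 hNT.2
    intro v hv
    apply bt_of_cd (fv_na v) hd1 (hV y hy).2
    exact cd_per (fv_na v) hd1 he hp hq (hgood v hv) (hV x hx).1 (hV y hy).1)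
  exact hcount

end Run7.h197.X
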