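import Pool.Agent.Run7.h197.X.Main

/-!
**Sets on which `z ↦ z ^ d` preserves the distances** at the places outside of `S`.
-/

set_option autoImplicit false

namespace Run7.h197.X

open Finset NumberField Height IsDedekindDomain
open Pool.Agent.H691R3 Run7.h197.U
open Pool.Agent.Y913.Bk (PolyB)

/-- **the main theorem for sets** -/
theorem main_set (D : ℕ) : ∃ M : ℕ, ∀ n : ℕ, 1 ≤ n → ∃ d₀ : ℕ, ∀ (K : Type) [Field K] [NumberField K],
    Module.finrank ℚ K ≤ D → ∀ (S : Finset (HeightOneSpectrum (𝓞 K))) (d : ℕ), d₀ ≤ d →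
    (8 * n * S.card) ^ n ≤ d ^ (n - 1) → ∀ P : Set K,
    (∀ v ∉ S, ∀ x ∈ P, ∀ y ∈ P, cd (fv v) (x, 1) (y, 1) ≤ cd (fv v) (x ^ d, 1) (y ^ d, 1)) →
    P.encard ≤
      ((2 * (S.card * (16 * S.card + 1) ^ (n - 1)) + 1) * M + 1 : ℕ) := by
  classical
  obtain ⟨N, hN1, hgap⟩ := gap D
  obtain ⟨d₁, hS1⟩ := S1 D
  obtain ⟨M, hM⟩ := mu_bound D
  refine ⟨M, fun n hn => ?_⟩
  obtain ⟨g1, hg1⟩ := ((PolyB.const 2).mul (((PolyB.const (N + 1)).mul
    (((PolyB.const D).mul (PolyB.id.add (PolyB.const 1))).add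
      (PolyB.const (2 ^ D * cD D)))).pow n)) |>.le_two_pow
  refine ⟨d₁ + N * D + 2 ^ (g1 + 1), ?_⟩
  intro K _ _ hK S d hd hSd P hgood
  obtain ⟨g, hg⟩ : ∃ g, g = Nat.size d := ⟨_, rfl⟩
  have hdlt : d < 2 ^ g := by rw [hg]; exact Nat.lt_size_self d
  have h2d : 2 ^ (g1 + 1) ≤ d := le_trans (Nat.le_add_left _ _) hd
  have hNDd : N * D ≤ d := le_trans (le_trans (Nat.le_add_left _ _) (Nat.le_add_right _ _)) hd
  have hd₁ : d₁ ≤ d := le_trans (le_trans (Nat.le_add_right _ _) (Nat.le_add_right _ _)) hd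
  have hd1 : 1 ≤ d := le_trans (Nat.one_le_two_pow) h2d
  have hgg : g1 + 1 < g := by
    have h1 : 2 ^ (g1 + 1) < 2 ^ g := lt_of_le_of_lt h2d hdlt
    exact (Nat.pow_lt_pow_iff_right (by norm_num)).1 h1
  have hgd' : 2 ^ g ≤ 2 * d := by
    have h2 : 2 ^ (g - 1) ≤ d := by
      apply Nat.lt_size.1
      omega
    calc 2 ^ g = 2 ^ (g - 1 + 1) := by rw [Nat.sub_add_cancel (by omega)]
      _ = 2 ^ (g - 1) * 2 := pow_succ _ _
      _ ≤ 2 * d := by omega
  have hpg := hg1 g (by omega)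
  obtain ⟨s, hs⟩ : ∃ s, s = S.card := ⟨_, rfl⟩
  obtain ⟨R, hR1, hR2⟩ := exists_root (n := n) (d := d) hn
  have hRpos : 1 ≤ R := by
    by_contra h0
    have h1 : R = 0 := by omega
    rw [h1, Nat.zero_add, one_pow] at hR2
    omega
  obtain ⟨r, rfl⟩ : ∃ r, n = r + 1 := ⟨n - 1, by omega⟩
  rw [Nat.add_sub_cancel, ← hs] at hSd
  rw [Nat.add_sub_cancel, ← hs]
  have hsR : 8 * (r + 1) * s * R ≤ d := by
    have h1 : (8 * (r + 1) * s * R) ^ (r + 1) ≤ d ^ (r + 1) := by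
      rw [mul_pow, pow_succ d r]
      exact Nat.mul_le_mul hSd hR1
    exact (Nat.pow_le_pow_iff_left (by omega)).1 h1
  obtain ⟨T, hT⟩ : ∃ T, T = (N + 1) * (D * (g + 1) + 2 ^ D * cD D) := ⟨_, rfl⟩
  have hTR : T ≤ R := by
    have h1 : T ^ (r + 1) ≤ d := by
      have : 2 * ((N + 1) * (D * (g + 1) + 2 ^ D * cD D)) ^ (r + 1) ≤ 2 * d := hpg.trans hgd'
      rw [hT]
      omega
    by_contra hcon
    push Not at hcon
    have h2 : (R + 1) ^ (r + 1) ≤ T ^ (r + 1) := Nat.pow_le_pow_left hcon _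
    omega
  -- the case of a bad place
  have hr1 : 1 ≤ s → 1 ≤ r := by
    intro h1
    by_contra h2
    have h3 : r = 0 := by omega
    subst h3
    rw [pow_zero, pow_one] at hSd
    omega
  have hsmall : (N + 1) * (2 * S.card * (D * (g + 1) + 2 ^ D * cD D)) < d := by
    rw [← hs]
    have h1 : (N + 1) * (2 * s * (D * (g + 1) + 2 ^ D * cD D)) = 2 * s * T := by rw [hT]; ring
    rw [h1]
    rcases Nat.eq_zero_or_pos s with h0 | h0
    · rw [h0]
      omega
    · have h2 : 0 < s * R := Nat.mul_pos h0 hRpos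
      calc 2 * s * T ≤ 2 * s * R := Nat.mul_le_mul_left _ hTR
        _ = 2 * (s * R) := by ring
        _ < 8 * (r + 1) * (s * R) := by
            apply Nat.mul_lt_mul_of_pos_right (by omega) h2
        _ = 8 * (r + 1) * s * R := by ring
        _ ≤ d := hsR
  have hbox : 4 * S.card * ((r + 1) * R) + 4 * S.card * (D * N * (g + 1)) < d := by
    rw [← hs]
    have h1 : D * N * (g + 1) ≤ R := by
      refine le_trans ?_ hTR
      rw [hT]
      calc D * N * (g + 1) = N * (D * (g + 1)) := by ring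
        _ ≤ (N + 1) * (D * (g + 1) + 2 ^ D * cD D) :=
            Nat.mul_le_mul (by omega) (Nat.le_add_right _ _)
    rcases Nat.eq_zero_or_pos s with h0 | h0
    · rw [h0]
      omega
    · have h2 : 0 < s * R := Nat.mul_pos h0 hRpos
      have h3 := hr1 h0
      calc 4 * s * ((r + 1) * R) + 4 * s * (D * N * (g + 1))
          ≤ 4 * s * ((r + 1) * R) + 4 * s * R :=
            Nat.add_le_add_left (Nat.mul_le_mul_left _ h1) _
        _ = (4 * (r + 1) + 4) * (s * R) := by ring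
        _ < 8 * (r + 1) * (s * R) := by
            apply Nat.mul_lt_mul_of_pos_right (by omega) h2
        _ = 8 * (r + 1) * s * R := by ring
        _ ≤ d := hsR
  have hgap' : ∀ x : K, NT x → 2 < mulHeight₁ x ^ N := fun x hx => hgap K hK x hx.2 hx.1
  have hcount := classes P (M := 2 * (s * (16 * s + 1) ^ r) + 1) (hM K hK) (by
    intro V hV hVV
    rw [hs]
    refine count_main hK (N := N) (g := g) hNDd hd1 hdlt.le hR2 S hsmall hbox hgap' V
      (fun x hx => (hV x hx).2) ?_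
    intro x hx y hy hxy
    have hNT := hVV x hx y hy hxy
    refine ⟨hNT, ?_⟩
    apply exists_dm hd1 (hgap' _ hNT)
    apply hS1 K hK S d hd₁ (x / y) hNT.1 hNT.2
    intro v hv
    apply bt_of_cd (fv_na v) hd1 (hV y hy).2
    exact hgood v hv x (hV x hx).1 y (hV y hy).1)
  exact hcount

end Run7.h197.X
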