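import Pool.Agent.Run7.h197.X.MainSet

/-!
**Triangular maps** of the affine space.
-/

set_option autoImplicit false

namespace Run7.h197.X

open Finset Polynomial

section tri
variable {K : Type} [Field K] {N : ℕ}

/-- triangular maps -/
noncomputable def tri (d : Fin N → ℕ) (P : Fin N → Polynomial (MvPolynomial (Fin N) K))
    (x : Fin N → K) : Fin N → K :=
  fun i => ((P i).map (MvPolynomial.eval x)).eval (x i ^ d i)

/-- periodic points -/
def PerT (F : (Fin N → K) → (Fin N → K)) : Set (Fin N → K) := {x | ∃ m : ℕ, 1 ≤ m ∧ F^[m] x = x}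

/-- only the variables before the `i`-th occur -/
def Prev (i : Fin N) (f : MvPolynomial (Fin N) K) : Prop := ∀ l ∈ f.vars, l < i

lemma eval_congr {i : Fin N} {f : MvPolynomial (Fin N) K} (hf : Prev i f) {x y : Fin N → K}
    (h : ∀ l < i, x l = y l) : MvPolynomial.eval x f = MvPolynomial.eval y f := by
  rw [MvPolynomial.eval_eq', MvPolynomial.eval_eq']
  refine Finset.sum_congr rfl fun m hm => ?_
  congr 1
  refine Finset.prod_congr rfl fun l _ => ?_
  by_cases hl : m l = 0
  · rw [hl, pow_zero, pow_zero]
  · rw [h l (hf l ((MvPolynomial.mem_vars_iff_mem_support l).2 ⟨m, hm, Finsupp.mem_support_iff.2 hl⟩))]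

lemma tri_congr {d : Fin N → ℕ} {P : Fin N → Polynomial (MvPolynomial (Fin N) K)}
    (hprev : ∀ i j, Prev i ((P i).coeff j)) {i : Fin N} {x y : Fin N → K}
    (h : ∀ l ≤ i, x l = y l) : tri d P x i = tri d P y i := by
  unfold tri
  have h1 : (P i).map (MvPolynomial.eval x) = (P i).map (MvPolynomial.eval y) := by
    ext j
    rw [coeff_map, coeff_map]
    exact eval_congr (hprev i j) fun l hl => h l hl.le
  rw [h1, h i le_rfl]

omit [Field K] in
lemma perT_iterate {F : (Fin N → K) → (Fin N → K)} {x : Fin N → K} (hx : x ∈ PerT F) (t : ℕ) :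
    F^[t] x ∈ PerT F := by
  obtain ⟨m, hm, h⟩ := hx
  refine ⟨m, hm, ?_⟩
  rw [← Function.iterate_add_apply, Nat.add_comm, Function.iterate_add_apply, h]

end tri

section NA
variable {K : Type} [Field K] {w : AbsoluteValue K ℝ} (hw : ∀ a b, w (a + b) ≤ max (w a) (w b))
include hw

/-- large values -/
lemma poly_low {Q : K[X]} {e : ℕ} (he : 1 ≤ e) (hQ : Q.natDegree ≤ e) (h1 : ∀ j, w (Q.coeff j) ≤ 1)
    (hu : w (Q.coeff e) = 1) {z : K} (hz : 1 < w z) : w z ^ e ≤ w (Q.eval z) := by
  have h := low_inf hw (f := Q) (g := 1) he hQ (by rw [natDegree_one]; omega) h1 (by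
    intro i
    rw [coeff_one]
    split_ifs
    · rw [map_one]
    · rw [map_zero]
      exact zero_le_one) (by rw [resultant_one_right, map_pow, hu, one_pow]) hz.le
  rw [eval_one, map_one] at h
  rcases le_max_iff.1 h with h | h
  · exact h
  · have := one_lt_pow₀ hz (by omega : e ≠ 0)
    linarith

/-- polynomials with integral coefficients do not increase distances -/
lemma poly_contr {Q : K[X]} (h1 : ∀ j, w (Q.coeff j) ≤ 1) {a b : K} (ha : w a ≤ 1) (hb : w b ≤ 1) :
    w (Q.eval a - Q.eval b) ≤ w (a - b) := by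
  have h2 : Q.eval a - Q.eval b =
      ∑ i ∈ Finset.range (Q.natDegree + 1), Q.coeff i * (a ^ i - b ^ i) := by
    rw [eval_eq_sum_range, eval_eq_sum_range, ← Finset.sum_sub_distrib]
    refine Finset.sum_congr rfl fun i _ => ?_
    ring
  rw [h2]
  apply na_sum_le hw _ _ (w.nonneg _)
  intro i _
  rw [map_mul]
  rcases Nat.eq_zero_or_pos i with h0 | h0
  · rw [h0, pow_zero, pow_zero, sub_self, map_zero, mul_zero]
    exact w.nonneg _
  · have h3 := pow_sub_bd hw ha hb h0
    rw [one_pow, mul_one] at h3
    calc w (Q.coeff i) * w (a ^ i - b ^ i) ≤ 1 * w (a - b) :=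
          mul_le_mul (h1 i) h3 (w.nonneg _) zero_le_one
      _ = _ := one_mul _

variable {N : ℕ}

lemma eval_int {i : Fin N} {f : MvPolynomial (Fin N) K} (hf : Prev i f) (hc : ∀ m, w (f.coeff m) ≤ 1)
    {x : Fin N → K} (h : ∀ l < i, w (x l) ≤ 1) : w (MvPolynomial.eval x f) ≤ 1 := by
  rw [MvPolynomial.eval_eq']
  apply na_sum_le hw _ _ zero_le_one
  intro m hm
  rw [map_mul, map_prod]
  apply mul_le_one₀ (hc m) (Finset.prod_nonneg fun l _ => w.nonneg _)
  apply Finset.prod_le_one (fun l _ => w.nonneg _)
  intro l _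
  rw [map_pow]
  by_cases hl : m l = 0
  · rw [hl, pow_zero]
  · exact pow_le_one₀ (w.nonneg _)
      (h l (hf l ((MvPolynomial.mem_vars_iff_mem_support l).2 ⟨m, hm, Finsupp.mem_support_iff.2 hl⟩)))

/-- periodic points are integral -/
theorem per_int {d : Fin N → ℕ} {P : Fin N → Polynomial (MvPolynomial (Fin N) K)}
    (hd : ∀ i, 2 ≤ d i) (hdeg : ∀ i, 1 ≤ (P i).natDegree)
    (hprev : ∀ i j, Prev i ((P i).coeff j))
    (hlead : ∀ i, ∃ u, (P i).leadingCoeff = MvPolynomial.C u ∧ w u = 1)
    (hint : ∀ i j m, w (((P i).coeff j).coeff m) ≤ 1) (i : Fin N) :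
    ∀ x ∈ PerT (tri d P), w (x i) ≤ 1 := by
  induction i using WellFoundedLT.induction with
  | ind i ih =>
  intro x hx
  by_contra hcon
  push Not at hcon
  have hstep : ∀ y ∈ PerT (tri d P), 1 < w (y i) → w (y i) < w (tri d P y i) := by
    intro y hy hy1
    obtain ⟨u, hu, hu1⟩ := hlead i
    have hwyd : 1 < w (y i ^ d i) := by
      rw [map_pow]
      exact one_lt_pow₀ hy1 (by have := hd i; omega)
    have h1 := poly_low hw (Q := (P i).map (MvPolynomial.eval y)) (hdeg i) (natDegree_map_le) (by
        intro j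
        rw [coeff_map]
        exact eval_int hw (hprev i j) (hint i j) fun l hl => ih l hl y hy) (by
        rw [coeff_map]
        show w (MvPolynomial.eval y (P i).leadingCoeff) = 1
        rw [hu, MvPolynomial.eval_C, hu1]) hwyd
    refine lt_of_lt_of_le ?_ h1
    rw [map_pow, ← pow_mul]
    have h2 : 1 < d i * (P i).natDegree := by
      have h3 := hd i
      have h4 := hdeg i
      calc 1 < 2 * 1 := by norm_num
        _ ≤ _ := Nat.mul_le_mul h3 h4
    exact lt_self_pow₀ hy1 h2
  have hge : ∀ t : ℕ, w (x i) ≤ w ((tri d P)^[t] x i) := by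
    intro t
    induction t with
    | zero => exact le_rfl
    | succ t iht =>
      rw [Function.iterate_succ_apply']
      exact iht.trans (hstep _ (perT_iterate hx t) (lt_of_lt_of_le hcon iht)).le
  obtain ⟨m, hm, hxm⟩ := hx
  obtain ⟨t, rfl⟩ : ∃ t, m = t + 1 := ⟨m - 1, by omega⟩
  have h1 := hge t
  have h2 := hstep _ (perT_iterate ⟨t + 1, hm, hxm⟩ t) (lt_of_lt_of_le hcon h1)
  rw [← Function.iterate_succ_apply' (tri d P) t x, hxm] at h2
  linarith

/-- two periodic points with the same first coordinates -/
theorem per_contr {d : Fin N → ℕ} {P : Fin N → Polynomial (MvPolynomial (Fin N) K)}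
    (hd : ∀ i, 2 ≤ d i) (hdeg : ∀ i, 1 ≤ (P i).natDegree)
    (hprev : ∀ i j, Prev i ((P i).coeff j))
    (hlead : ∀ i, ∃ u, (P i).leadingCoeff = MvPolynomial.C u ∧ w u = 1)
    (hint : ∀ i j m, w (((P i).coeff j).coeff m) ≤ 1) (i : Fin N) {x y : Fin N → K}
    (hx : x ∈ PerT (tri d P)) (hy : y ∈ PerT (tri d P)) (hxy : ∀ l < i, x l = y l) :
    w (x i - y i) ≤ w (x i ^ d i - y i ^ d i) := by
  have hI := per_int hw hd hdeg hprev hlead hint
  have hpre : ∀ t : ℕ, ∀ l < i, (tri d P)^[t] x l = (tri d P)^[t] y l := by
    intro t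
    induction t with
    | zero => exact hxy
    | succ t iht =>
      intro l hl
      rw [Function.iterate_succ_apply', Function.iterate_succ_apply']
      exact tri_congr hprev fun l' hl' => iht l' (lt_of_le_of_lt hl' hl)
  have hone : ∀ x ∈ PerT (tri d P), ∀ y ∈ PerT (tri d P), (∀ l < i, x l = y l) →
      w (tri d P x i - tri d P y i) ≤ w (x i ^ d i - y i ^ d i) := by
    intro x hx y hy hxy
    have h1 : (P i).map (MvPolynomial.eval x) = (P i).map (MvPolynomial.eval y) := by
      ext j
      rw [coeff_map, coeff_map]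
      exact eval_congr (hprev i j) hxy
    unfold tri
    rw [← h1]
    apply poly_contr hw
    · intro j
      rw [coeff_map]
      exact eval_int hw (hprev i j) (hint i j) fun l _ => hI l x hx
    · rw [map_pow]
      exact pow_le_one₀ (w.nonneg _) (hI i x hx)
    · rw [map_pow]
      exact pow_le_one₀ (w.nonneg _) (hI i y hy)
  have hpow : ∀ x ∈ PerT (tri d P), ∀ y ∈ PerT (tri d P),
      w (x i ^ d i - y i ^ d i) ≤ w (x i - y i) := by
    intro x hx y hy
    have h3 := pow_sub_bd hw (hI i x hx) (hI i y hy) (n := d i) (by have := hd i; omega)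
    rwa [one_pow, mul_one] at h3
  have hit : ∀ t : ℕ, w ((tri d P)^[t + 1] x i - (tri d P)^[t + 1] y i) ≤
      w (x i ^ d i - y i ^ d i) := by
    intro t
    induction t with
    | zero => exact hone x hx y hy hxy
    | succ t iht =>
      rw [Function.iterate_succ_apply' _ (t + 1), Function.iterate_succ_apply' _ (t + 1)]
      exact (hone _ (perT_iterate hx _) _ (perT_iterate hy _) (hpre _)).trans
        ((hpow _ (perT_iterate hx _) _ (perT_iterate hy _)).trans iht)
  obtain ⟨m, hm, hxm⟩ := hx
  obtain ⟨m', hm', hym⟩ := hy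
  obtain ⟨L, hL⟩ : ∃ L, L + 1 = m * m' := ⟨m * m' - 1, by
    have := Nat.mul_pos hm hm'
    omega⟩
  have h1 : (tri d P)^[m * m'] x = x := by
    rw [Function.iterate_mul]
    exact Function.iterate_fixed hxm _
  have h2 : (tri d P)^[m * m'] y = y := by
    rw [Nat.mul_comm, Function.iterate_mul]
    exact Function.iterate_fixed hym _
  have h3 := hit L
  rw [hL, h1, h2] at h3
  exact h3

end NA

section count

open NumberField IsDedekindDomain Pool.Agent.H691R3

/-- the first `k` coordinates -/
def trunc {K : Type} [Field K] {N : ℕ} (k : ℕ) (x : Fin N → K) : Fin N → K :=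
  fun i => if i.val < k then x i else 0

lemma trunc_trunc {K : Type} [Field K] {N : ℕ} (k : ℕ) (x : Fin N → K) :
    trunc k (trunc (k + 1) x) = trunc k x := by
  funext i
  unfold trunc
  by_cases h : i.val < k
  · rw [if_pos h, if_pos h, if_pos (by omega)]
  · rw [if_neg h, if_neg h]

/-- **periodic points of triangular maps** -/
theorem tri_main (D : ℕ) : ∃ M : ℕ, ∀ n : ℕ, 1 ≤ n → ∃ d₀ : ℕ, ∀ (K : Type) [Field K] [NumberField K],
    Module.finrank ℚ K ≤ D → ∀ (S : Finset (HeightOneSpectrum (𝓞 K))) (N : ℕ) (d : Fin N → ℕ)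
    (P : Fin N → Polynomial (MvPolynomial (Fin N) K)), (∀ i, d₀ ≤ d i) →
    (∀ i, (8 * n * S.card) ^ n ≤ d i ^ (n - 1)) → (∀ i, 1 ≤ (P i).natDegree) →
    (∀ i j, Prev i ((P i).coeff j)) →
    (∀ i, ∃ u, (P i).leadingCoeff = MvPolynomial.C u ∧ ∀ v ∉ S, fv v u = 1) →
    (∀ v ∉ S, ∀ i j m, fv v (((P i).coeff j).coeff m) ≤ 1) →
    (PerT (tri d P)).encard ≤
      (((2 * (S.card * (16 * S.card + 1) ^ (n - 1)) + 1) * M + 1) ^ N : ℕ) := by
  classical
  obtain ⟨M, hM⟩ := main_set D
  refine ⟨M, fun n hn => ?_⟩
  obtain ⟨d₀, hd₀⟩ := hM n hn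
  refine ⟨d₀ + 2, ?_⟩
  intro K _ _ hK S N d P hd hS hdeg hprev hlead hint
  obtain ⟨B, hB⟩ : ∃ B, B = (2 * (S.card * (16 * S.card + 1) ^ (n - 1)) + 1) * M + 1 := ⟨_, rfl⟩
  rw [← hB]
  have hd2 : ∀ i, 2 ≤ d i := fun i => by have := hd i; omega
  have hlead' : ∀ v ∉ S, ∀ i, ∃ u, (P i).leadingCoeff = MvPolynomial.C u ∧ fv v u = 1 := by
    intro v hv i
    obtain ⟨u, hu, hu1⟩ := hlead i
    exact ⟨u, hu, hu1 v hv⟩
  -- the finite sets
  have key : ∀ V : Finset (Fin N → K), (V : Set (Fin N → K)) ⊆ PerT (tri d P) → V.card ≤ B ^ N := by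
    intro V hV
    have hk : ∀ k : ℕ, k ≤ N → (V.image (trunc k)).card ≤ B ^ k := by
      intro k
      induction k with
      | zero =>
        intro _
        rw [pow_zero, Finset.card_le_one]
        intro a ha b hb
        obtain ⟨x, _, rfl⟩ := Finset.mem_image.1 ha
        obtain ⟨y, _, rfl⟩ := Finset.mem_image.1 hb
        funext i
        unfold trunc
        rw [if_neg (by omega), if_neg (by omega)]
      | succ k ih =>
        intro hkN
        have hi₀ : k < N := hkN
        obtain ⟨i₀, hi₀'⟩ : ∃ i₀ : Fin N, i₀ = ⟨k, hi₀⟩ := ⟨_, rfl⟩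
        have himg : (V.image (trunc (k + 1))).image (trunc k) = V.image (trunc k) := by
          rw [Finset.image_image]
          apply Finset.image_congr
          intro x _
          exact trunc_trunc k x
        have hfib : ∀ a ∈ (V.image (trunc (k + 1))).image (trunc k),
            ((V.image (trunc (k + 1))).filter fun x => trunc k x = a).card ≤ B := by
          intro a _
          obtain ⟨F, hF⟩ : ∃ F, F = (V.image (trunc (k + 1))).filter fun x => trunc k x = a :=
            ⟨_, rfl⟩
          rw [← hF]
          -- members come from periodic points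
          have hmem : ∀ x ∈ F, ∃ X ∈ V, trunc k X = a ∧ trunc (k + 1) X = x := by
            intro x hx
            rw [hF, Finset.mem_filter] at hx
            obtain ⟨X, hX, rfl⟩ := Finset.mem_image.1 hx.1
            refine ⟨X, hX, ?_, rfl⟩
            rw [← hx.2, trunc_trunc]
          have hinj : Set.InjOn (fun x : Fin N → K => x i₀) (F : Set (Fin N → K)) := by
            intro x hx y hy hxy
            obtain ⟨X, hX, hXa, rfl⟩ := hmem x hx
            obtain ⟨Y, hY, hYa, rfl⟩ := hmem y hy
            funext i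
            by_cases h1 : i.val < k
            · have h2 := congrFun (hXa.trans hYa.symm) i
              unfold trunc at h2 ⊢
              rw [if_pos h1, if_pos h1] at h2
              rw [if_pos (by omega), if_pos (by omega), h2]
            · by_cases h2 : i.val < k + 1
              · have h3 : i = i₀ := by
                  rw [hi₀']
                  apply Fin.ext
                  show i.val = k
                  omega
                rw [h3]
                exact hxy
              · unfold trunc
                rw [if_neg h2, if_neg h2]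
          obtain ⟨A, hA⟩ : ∃ A : Set K, A = {z | ∃ X ∈ V, trunc k X = a ∧ X i₀ = z} := ⟨_, rfl⟩
          have hAB : A.encard ≤ (B : ℕ) := by
            rw [hB]
            apply hd₀ K hK S (d i₀) (by have := hd i₀; omega) (hS i₀) A
            intro v hv x hx y hy
            rw [hA] at hx hy
            obtain ⟨X, hX, hXa, rfl⟩ := hx
            obtain ⟨Y, hY, hYa, rfl⟩ := hy
            have hpre : ∀ l < i₀, X l = Y l := by
              intro l hl
              have h1 : l.val < k := by
                have : l.val < i₀.val := hl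
                rw [hi₀'] at this
                exact this
              have h2 := congrFun (hXa.trans hYa.symm) l
              unfold trunc at h2
              rwa [if_pos h1, if_pos h1] at h2
            have hc := per_contr (fv_na v) hd2 hdeg hprev (hlead' v hv) (hint v hv) i₀ (hV hX)
              (hV hY) hpre
            have hX1 := per_int (fv_na v) hd2 hdeg hprev (hlead' v hv) (hint v hv) i₀ X (hV hX)
            have hY1 := per_int (fv_na v) hd2 hdeg hprev (hlead' v hv) (hint v hv) i₀ Y (hV hY)
            unfold cd nm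
            simp only [map_one, mul_one, one_mul, map_pow]
            rw [max_eq_right hX1, max_eq_right hY1,
              max_eq_right (pow_le_one₀ ((fv v).nonneg _) hX1),
              max_eq_right (pow_le_one₀ ((fv v).nonneg _) hY1), mul_one, div_one, div_one]
            exact hc
          have hcard : (F.image fun x : Fin N → K => x i₀).card = F.card :=
            Finset.card_image_of_injOn hinj
          have hsub : ((F.image fun x : Fin N → K => x i₀ : Finset K) : Set K) ⊆ A := by
            intro z hz
            rw [Finset.mem_coe, Finset.mem_image] at hz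
            obtain ⟨x, hx, rfl⟩ := hz
            obtain ⟨X, hX, hXa, rfl⟩ := hmem x hx
            rw [hA]
            refine ⟨X, hX, hXa, ?_⟩
            unfold trunc
            rw [if_pos (by rw [hi₀']; exact Nat.lt_succ_self k)]
          have h5 := (Set.encard_le_encard hsub).trans hAB
          rw [Set.encard_coe_eq_coe_finsetCard, hcard] at h5
          exact_mod_cast h5
        have h1 := Finset.card_le_mul_card_image _ B hfib
        rw [himg] at h1
        calc (V.image (trunc (k + 1))).card ≤ B * (V.image (trunc k)).card := h1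
          _ ≤ B * B ^ k := Nat.mul_le_mul_left _ (ih (by omega))
          _ = B ^ (k + 1) := (pow_succ' _ _).symm
    have h2 := hk N le_rfl
    have h3 : (V.image (trunc N)).card = V.card := by
      apply Finset.card_image_of_injective
      intro x y hxy
      funext i
      have h4 := congrFun hxy i
      unfold trunc at h4
      rwa [if_pos i.isLt, if_pos i.isLt] at h4
    rwa [h3] at h2
  by_contra hcon
  push Not at hcon
  have h6 : ((B ^ N + 1 : ℕ) : ℕ∞) ≤ (PerT (tri d P)).encard := by
    have := Order.add_one_le_of_lt hcon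
    exact_mod_cast this
  obtain ⟨t, htsub, htcard⟩ := Set.exists_subset_encard_eq h6
  have htfin : t.Finite := Set.finite_of_encard_eq_coe htcard
  obtain ⟨V, rfl⟩ := htfin.exists_finset_coe
  rw [Set.encard_coe_eq_coe_finsetCard] at htcard
  have h7 := key V htsub
  have h8 : V.card = B ^ N + 1 := by exact_mod_cast htcard
  omega

end count

end Run7.h197.X
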