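import Pool.Agent.Run7.h197.X.Lam

/-!
**The final count**: sets all of whose ratios have a dominating place.
-/

set_option autoImplicit false

namespace Run7.h197.X

open Finset NumberField Height IsDedekindDomain
open Pool.Agent.H691R3 Run7.h197.U

variable {K : Type} [Field K] [NumberField K]

/-- **the count** -/
theorem count_main {D N d g r B : ℕ} (hK : Module.finrank ℚ K ≤ D) (hND : N * D ≤ d) (hd : 1 ≤ d)
    (hdg : d ≤ 2 ^ g) (hB : d < (B + 1) ^ (r + 1)) (S : Finset (HeightOneSpectrum (𝓞 K)))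
    (hsmall : (N + 1) * (2 * S.card * (D * (g + 1) + 2 ^ D * cD D)) < d)
    (hbox : 4 * S.card * ((r + 1) * B) + 4 * S.card * (D * N * (g + 1)) < d)
    (hgap : ∀ x : K, NT x → 2 < mulHeight₁ x ^ N) (V : Finset K) (hV0 : ∀ x ∈ V, x ≠ 0)
    (hVV : ∀ x ∈ V, ∀ y ∈ V, x ≠ y → NT (x / y) ∧ ∃ v ∈ S, Dm v S.card d (x / y)) :
    V.card ≤ 2 * (S.card * (16 * S.card + 1) ^ r) + 1 := by
  classical
  by_cases hc : V.card ≤ 1
  · omega
  push Not at hc
  obtain ⟨x₁, hx₁, y₁, hy₁, hne₁⟩ := Finset.one_lt_card.1 hc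
  obtain ⟨⟨a, b⟩, hab, hmax⟩ := Finset.exists_max_image (V ×ˢ V)
    (fun p => mulHeight₁ (p.1 / p.2)) ⟨(x₁, y₁), Finset.mem_product.2 ⟨hx₁, hy₁⟩⟩
  obtain ⟨ha, hb⟩ := Finset.mem_product.1 hab
  simp only at ha hb
  obtain ⟨Z, hZ⟩ : ∃ Z, Z = mulHeight₁ (a / b) := ⟨_, rfl⟩
  have hle : ∀ x ∈ V, ∀ y ∈ V, mulHeight₁ (x / y) ≤ Z := by
    intro x hx y hy
    rw [hZ]
    exact hmax (x, y) (Finset.mem_product.2 ⟨hx, hy⟩)
  have hZ1 : 1 < Z :=
    lt_of_lt_of_le (NT.one_lt (hgap _ (hVV x₁ hx₁ y₁ hy₁ hne₁).1)) (hle x₁ hx₁ y₁ hy₁)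
  -- each half
  have half : ∀ c ∈ V, (V.filter (fun x => Z ≤ mulHeight₁ (x / c) ^ 2)).card ≤
      S.card * (16 * S.card + 1) ^ r := by
    intro c hcV
    have hc0 := hV0 c hcV
    have hsub : V.filter (fun x => Z ≤ mulHeight₁ (x / c) ^ 2) ⊆
        S.biUnion fun v => (V.filter (fun x => Z ≤ mulHeight₁ (x / c) ^ 2)).filter
          (fun x => x ≠ c ∧ Dm v S.card d (x / c)) := by
      intro x hx
      obtain ⟨hxV, hxZ⟩ := Finset.mem_filter.1 hx
      have hxc : x ≠ c := by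
        rintro rfl
        rw [div_self hc0, mulHeight₁_one, one_pow] at hxZ
        linarith
      obtain ⟨_, v, hv, hdm⟩ := hVV x hxV c hcV hxc
      rw [Finset.mem_biUnion]
      exact ⟨v, hv, Finset.mem_filter.2 ⟨hx, hxc, hdm⟩⟩
    refine (Finset.card_le_card hsub).trans ?_
    refine Finset.card_biUnion_le_card_mul _ _ _ ?_
    intro v hv
    have hinj : Function.Injective (fun x : K => x / c) := by
      intro x y hxy
      exact (div_left_inj' hc0).1 hxy
    rw [← Finset.card_image_of_injective _ hinj]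
    apply star hK hND hd hdg (Finset.card_pos.2 ⟨v, hv⟩) hB hsmall hbox hgap (v := v) (Z := Z)
    · intro u hu
      obtain ⟨x, hx, rfl⟩ := Finset.mem_image.1 hu
      obtain ⟨hx1, hxc, hdm⟩ := Finset.mem_filter.1 hx
      obtain ⟨hxV, hxZ⟩ := Finset.mem_filter.1 hx1
      exact ⟨(hVV x hxV c hcV hxc).1, hdm, hle x hxV c hcV, hxZ⟩
    · intro u hu u' hu' hne
      obtain ⟨x, hx, rfl⟩ := Finset.mem_image.1 hu
      obtain ⟨x', hx', rfl⟩ := Finset.mem_image.1 hu'
      have hxV := (Finset.mem_filter.1 (Finset.mem_filter.1 hx).1).1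
      have hxV' := (Finset.mem_filter.1 (Finset.mem_filter.1 hx').1).1
      have hne' : x ≠ x' := by
        rintro rfl
        exact hne rfl
      have h1 : x / c / (x' / c) = x / x' := by
        have := hV0 x' hxV'
        field_simp
      rw [h1]
      exact (hVV x hxV x' hxV' hne').1
  have hcov : V ⊆ V.filter (fun x => Z ≤ mulHeight₁ (x / a) ^ 2) ∪
      V.filter (fun x => Z ≤ mulHeight₁ (x / b) ^ 2) := by
    intro x hx
    rw [Finset.mem_union, Finset.mem_filter, Finset.mem_filter]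
    have hx0 := hV0 x hx
    have ha0 := hV0 a ha
    have hb0 := hV0 b hb
    have h1 : Z ≤ mulHeight₁ (x / a) * mulHeight₁ (x / b) := by
      have h2 : a / b = (x / a)⁻¹ * (x / b) := by field_simp
      rw [hZ, h2]
      refine (mulHeight₁_mul_le _ _).trans ?_
      rw [mulHeight₁_inv]
    have hA := mulHeight₁_nonneg (x / a)
    have hB := mulHeight₁_nonneg (x / b)
    rcases le_total (mulHeight₁ (x / a)) (mulHeight₁ (x / b)) with h | h
    · right
      refine ⟨hx, ?_⟩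
      nlinarith
    · left
      refine ⟨hx, ?_⟩
      nlinarith
  have hfin : V.card ≤ S.card * (16 * S.card + 1) ^ r + S.card * (16 * S.card + 1) ^ r :=
    (Finset.card_le_card hcov).trans ((Finset.card_union_le _ _).trans
      (Nat.add_le_add (half a ha) (half b hb)))
  omega

end Run7.h197.X
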